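import Mathlib

/-!
Comparison lemmas for the local theory of dyadic (shell) models.
-/

open Set Filter Topology

namespace Pool.Agent.H39.Dy

/-- the value at the previous shell, zero for the first shell -/
def prev (x : ℕ → ℝ) : ℕ → ℝ
  | 0 => 0
  | m + 1 => x m

/-- If `z' = f - c z` with `c ≥ 0`, `|f| ≤ g = G'` and `|z 0| ≤ G 0`, then `|z| ≤ G`. -/
theorem comparison {T c : ℝ} (hc : 0 ≤ c) {z f G g : ℝ → ℝ}
    (hz : ∀ t ∈ Icc 0 T, HasDerivWithinAt z (f t - c * z t) (Icc 0 T) t)
    (hG : ∀ t ∈ Icc 0 T, HasDerivWithinAt G (g t) (Icc 0 T) t)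
    (hfg : ∀ t ∈ Icc 0 T, |f t| ≤ g t) (h0 : |z 0| ≤ G 0) :
    ∀ t ∈ Icc 0 T, |z t| ≤ G t := by
  intro t₀ ht₀
  have hT : 0 ≤ T := ht₀.1.trans ht₀.2
  have hmem : ∀ t ∈ Ico 0 T, t ∈ Icc 0 T := fun t ht => ⟨ht.1, ht.2.le⟩
  have hr : ∀ (h : ℝ → ℝ) (v t : ℝ), t ∈ Ico 0 T → HasDerivWithinAt h v (Icc 0 T) t →
      HasDerivWithinAt h v (Ici t) t := by
    intro h v t ht hd
    exact hd.mono_of_mem_nhdsWithin (Icc_mem_nhdsGE_of_mem ht)
  -- `G` is monotone, hence nonnegative
  have hGnn : ∀ t ∈ Icc 0 T, 0 ≤ G t := by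
    intro t ht
    have := image_le_of_deriv_right_le_deriv_boundary (f := fun _ => (0 : ℝ)) (f' := fun _ => 0)
      (a := 0) (b := T) (B := G) (B' := g) continuousOn_const
      (fun x _ => hasDerivWithinAt_const _ _ _) ((abs_nonneg _).trans h0)
      (fun x hx => (hG x hx).continuousWithinAt) (fun x hx => hr _ _ _ hx (hG x (hmem x hx)))
      (fun x hx => (abs_nonneg _).trans (hfg x (hmem x hx)))
    exact this ht
  have he : ∀ t : ℝ, HasDerivAt (fun t => Real.exp (c * t)) (Real.exp (c * t) * c) t := by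
    intro t
    have h1 : HasDerivAt (fun t : ℝ => c * t) c t := by
      simpa using (hasDerivAt_id' t).const_mul c
    exact h1.exp
  have key := image_norm_le_of_norm_deriv_right_le_deriv_boundary'
    (a := 0) (b := T) (f := fun t => Real.exp (c * t) * z t)
    (f' := fun t => Real.exp (c * t) * f t)
    (B := fun t => Real.exp (c * t) * G t)
    (B' := fun t => Real.exp (c * t) * c * G t + Real.exp (c * t) * g t) ?_ ?_ ?_ ?_ ?_ ?_ ht₀
  · have hpos : 0 < Real.exp (c * t₀) := Real.exp_pos _
    simp only [Real.norm_eq_abs, abs_mul, abs_of_pos hpos] at key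
    exact le_of_mul_le_mul_left key hpos
  · intro t ht
    exact ((he t).continuousAt.continuousWithinAt).mul (hz t ht).continuousWithinAt
  · intro t ht
    have h1 := hr _ _ _ ht (((he t).hasDerivWithinAt (s := Icc 0 T)).mul (hz t (hmem t ht)))
    refine h1.congr_deriv ?_
    ring
  · simpa using h0
  · intro t ht
    exact ((he t).continuousAt.continuousWithinAt).mul (hG t ht).continuousWithinAt
  · intro t ht
    exact hr _ _ _ ht (((he t).hasDerivWithinAt (s := Icc 0 T)).mul (hG t (hmem t ht)))
  · intro t ht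
    have hpos : 0 < Real.exp (c * t) := Real.exp_pos _
    simp only [Real.norm_eq_abs, abs_mul, abs_of_pos hpos]
    have h1 := mul_le_mul_of_nonneg_left (hfg t (hmem t ht)) hpos.le
    have h2 : 0 ≤ Real.exp (c * t) * c * G t :=
      mul_nonneg (mul_nonneg hpos.le hc) (hGnn t (hmem t ht))
    linarith

/-- The basic iteration: tridiagonal linear differential inequalities propagate geometric bounds. -/
theorem propagate {T L A ρ C : ℝ} (hL : 0 ≤ L) (hA : 0 ≤ A) (hρ : 0 < ρ)
    {c : ℕ → ℝ} (hc : ∀ n, 0 ≤ c n) {z f : ℕ → ℝ → ℝ}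
    (hz : ∀ n, ∀ t ∈ Icc 0 T, HasDerivWithinAt (z n) (f n t - c n * z n t) (Icc 0 T) t)
    (hf : ∀ n, ∀ t ∈ Icc 0 T,
      |f n t| ≤ L * (|prev (fun k => z k t) n| + |z n t| + |z (n + 1) t|))
    (hC : ∀ n, ∀ t ∈ Icc 0 T, |z n t| ≤ C) (h0 : ∀ n, |z n 0| ≤ A * ρ ^ n) :
    ∀ n, ∀ t ∈ Icc 0 T, |z n t| ≤ A * ρ ^ n * Real.exp (L * (1 / ρ + 1 + ρ) * t) := by
  intro n t ht
  have hT : 0 ≤ T := ht.1.trans ht.2
  have hC0 : 0 ≤ C := (abs_nonneg _).trans (hC 0 0 ⟨le_rfl, hT⟩)
  set κ := L * (1 / ρ + 1 + ρ) with hκ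
  have main : ∀ m : ℕ, ∀ n, ∀ t ∈ Icc 0 T,
      |z n t| ≤ A * ρ ^ n * Real.exp (κ * t) + C * ((3 * L * t) ^ m / m.factorial) := by
    intro m
    induction m with
    | zero =>
      intro n t ht
      have := hC n t ht
      have h2 : 0 ≤ A * ρ ^ n * Real.exp (κ * t) := by positivity
      simp only [pow_zero, Nat.factorial_zero, Nat.cast_one, div_one, mul_one]
      linarith
    | succ m ih =>
      intro n
      apply comparison (hc n) (hz n) (G := fun t => A * ρ ^ n * Real.exp (κ * t) +
          C * ((3 * L * t) ^ (m + 1) / (m + 1).factorial))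
        (g := fun t => A * ρ ^ n * (Real.exp (κ * t) * κ) +
          C * (3 * L * ((3 * L * t) ^ m / m.factorial)))
      · intro t _
        apply HasDerivAt.hasDerivWithinAt
        have h1 : HasDerivAt (fun t : ℝ => κ * t) κ t := by
          simpa using (hasDerivAt_id' t).const_mul κ
        have h2 : HasDerivAt (fun t : ℝ => 3 * L * t) (3 * L) t := by
          simpa using (hasDerivAt_id' t).const_mul (3 * L)
        have h3 := ((h2.pow (m + 1)).div_const ((m + 1).factorial : ℝ)).const_mul C
        have h4 := (h1.exp.const_mul (A * ρ ^ n)).add h3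
        refine h4.congr_deriv ?_
        have : ((m + 1).factorial : ℝ) = (m + 1) * m.factorial := by
          rw [Nat.factorial_succ]; push_cast; ring
        have hm : (m.factorial : ℝ) ≠ 0 := by positivity
        have hm1 : (m : ℝ) + 1 ≠ 0 := by positivity
        rw [this]
        simp only [Nat.add_sub_cancel]
        push_cast
        field_simp
      · intro t ht
        refine (hf n t ht).trans ?_
        have e1 := ih n t ht
        have e2 := ih (n + 1) t ht
        set E := Real.exp (κ * t)
        set R := C * ((3 * L * t) ^ m / m.factorial) with hR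
        have hE : 0 ≤ E := (Real.exp_pos _).le
        have hR0 : 0 ≤ R := by
          have := ht.1
          positivity
        have e0 : |prev (fun k => z k t) n| ≤ A * ρ ^ n * (1 / ρ) * E + R := by
          cases n with
          | zero =>
            simp only [prev, abs_zero]
            positivity
          | succ k =>
            simp only [prev]
            have := ih k t ht
            have h5 : A * ρ ^ (k + 1) * (1 / ρ) * E = A * ρ ^ k * E := by
              rw [pow_succ]
              field_simp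
            rw [h5]
            exact this
        have e3 : A * ρ ^ (n + 1) * E = A * ρ ^ n * ρ * E := by ring
        rw [e3] at e2
        calc L * (|prev (fun k => z k t) n| + |z n t| + |z (n + 1) t|)
            ≤ L * ((A * ρ ^ n * (1 / ρ) * E + R) + (A * ρ ^ n * E + R)
                + (A * ρ ^ n * ρ * E + R)) := by gcongr
          _ = A * ρ ^ n * (E * κ) + C * (3 * L * ((3 * L * t) ^ m / m.factorial)) := by
            rw [hκ, hR]; ring
      · have := h0 n
        simp only [mul_zero, Real.exp_zero, mul_one, ne_eq, Nat.add_eq_zero_iff, one_ne_zero,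
          and_false, not_false_eq_true, zero_pow, zero_div, add_zero]
        exact this
  have hlim : Tendsto (fun m : ℕ => A * ρ ^ n * Real.exp (κ * t) +
      C * ((3 * L * t) ^ m / m.factorial)) atTop (𝓝 (A * ρ ^ n * Real.exp (κ * t) + C * 0)) :=
    (tendsto_const_nhds.add ((FloorSemiring.tendsto_pow_div_factorial_atTop _).const_mul C))
  rw [mul_zero, add_zero] at hlim
  exact ge_of_tendsto' hlim (fun m => main m n t ht)

end Pool.Agent.H39.Dy
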