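import Pool.Agent.H39.Dy.System

/-!
Energy estimates for the mixed dyadic system.
-/

open Set Filter Topology MeasureTheory intervalIntegral

namespace Pool.Agent.H39.Dy

/-- energy flux from shell `n` to shell `n + 1` -/
def flux (α β B : ℝ) (x : ℕ → ℝ) (n : ℕ) : ℝ :=
  B ^ n * x n * x (n + 1) * (α * x n + β * x (n + 1))

theorem gain_mul (α β B : ℝ) (x : ℕ → ℝ) (n : ℕ) :
    gain α β B x n * x n = prev (flux α β B x) n := by
  cases n with
  | zero => simp [gain, prev]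
  | succ m => simp only [gain, prev, flux]; ring

theorem telescope (φ : ℕ → ℝ) (N M : ℕ) (h : N ≤ M) :
    ∑ n ∈ Finset.Ico N M, (prev φ n - φ n) = prev φ N - prev φ M := by
  induction M, h using Nat.le_induction with
  | base => simp
  | succ M hM ih =>
    rw [Finset.sum_Ico_succ_top hM, ih]
    simp only [prev]
    ring

/-- the accumulated dissipation of shell `n` up to time `t` (without the factor `ν`) -/
noncomputable def diss {T : ℝ} (hT : 0 ≤ T) (D : ℝ) (X : ℕ → ℝ → ℝ) (n : ℕ) (t : ℝ) : ℝ :=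
  ∫ s in (0 : ℝ)..t, D ^ n * (X n (projIcc 0 T hT s)) ^ 2

theorem diss_hasDerivWithinAt {T : ℝ} (hT : 0 ≤ T) {D : ℝ} {X : ℕ → ℝ → ℝ} {n : ℕ}
    (hX : ContinuousOn (X n) (Icc 0 T)) {t : ℝ} (ht : t ∈ Icc 0 T) :
    HasDerivWithinAt (diss hT D X n) (D ^ n * X n t ^ 2) (Icc 0 T) t := by
  have hc : Continuous fun s => D ^ n * (X n (projIcc 0 T hT s)) ^ 2 := by
    have h1 : Continuous fun s => X n (projIcc 0 T hT s) :=
      (hX.domRestrict).comp continuous_projIcc
    exact continuous_const.mul (h1.pow 2)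
  have h1 : HasDerivAt (diss hT D X n) (D ^ n * (X n (projIcc 0 T hT t)) ^ 2) t :=
    integral_hasDerivAt_right (hc.intervalIntegrable _ _)
      (hc.stronglyMeasurableAtFilter _ _) hc.continuousAt
  rw [projIcc_of_mem hT ht] at h1
  exact h1.hasDerivWithinAt

theorem diss_zero {T : ℝ} (hT : 0 ≤ T) (D : ℝ) (X : ℕ → ℝ → ℝ) (n : ℕ) : diss hT D X n 0 = 0 := by
  simp [diss]

theorem diss_nonneg {T : ℝ} (hT : 0 ≤ T) {D : ℝ} (hD : 0 ≤ D) (X : ℕ → ℝ → ℝ) (n : ℕ) {t : ℝ}
    (ht : 0 ≤ t) : 0 ≤ diss hT D X n t := by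
  apply integral_nonneg ht
  intro s _
  positivity

/-- comparison of increments -/
theorem increment_le {T : ℝ} {h k h' k' : ℝ → ℝ}
    (hh : ∀ t ∈ Icc 0 T, HasDerivWithinAt h (h' t) (Icc 0 T) t)
    (hk : ∀ t ∈ Icc 0 T, HasDerivWithinAt k (k' t) (Icc 0 T) t)
    (hle : ∀ t ∈ Icc 0 T, h' t ≤ k' t) : ∀ t ∈ Icc 0 T, h t - h 0 ≤ k t - k 0 := by
  intro t ht
  have hmem : ∀ t ∈ Ico 0 T, t ∈ Icc 0 T := fun t ht => ⟨ht.1, ht.2.le⟩
  have hr : ∀ (f : ℝ → ℝ) (v t : ℝ), t ∈ Ico 0 T → HasDerivWithinAt f v (Icc 0 T) t →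
      HasDerivWithinAt f v (Ici t) t := by
    intro f v t ht hd
    exact hd.mono_of_mem_nhdsWithin (Icc_mem_nhdsGE_of_mem ht)
  have := image_le_of_deriv_right_le_deriv_boundary (f := fun t => h t - h 0) (f' := h')
    (a := 0) (b := T) (B := fun t => k t - k 0) (B' := k')
    (fun x hx => ((hh x hx).sub_const _).continuousWithinAt)
    (fun x hx => hr _ _ _ hx ((hh x (hmem x hx)).sub_const _)) (by simp)
    (fun x hx => ((hk x hx).sub_const _).continuousWithinAt)
    (fun x hx => hr _ _ _ hx ((hk x (hmem x hx)).sub_const _))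
    (fun x hx => hle x (hmem x hx))
  exact this ht

variable {α β B D ν T : ℝ} {X : ℕ → ℝ → ℝ}

theorem IsSol.continuousOn (h : IsSol α β B D ν T X) (n : ℕ) : ContinuousOn (X n) (Icc 0 T) :=
  fun t ht => (h n t ht).continuousWithinAt

theorem IsSol.sq (h : IsSol α β B D ν T X) (n : ℕ) {t : ℝ} (ht : t ∈ Icc 0 T) :
    HasDerivWithinAt (fun t => X n t ^ 2)
      (2 * (prev (flux α β B fun k => X k t) n - flux α β B (fun k => X k t) n)
        - 2 * ν * (D ^ n * X n t ^ 2)) (Icc 0 T) t := by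
  have h1 := (h n t ht).pow 2
  refine h1.congr_deriv ?_
  have e := gain_mul α β B (fun k => X k t) n
  rw [← e]
  simp only [flux]
  push_cast
  ring

/-- The energy identity of a window of shells, as an inequality. -/
theorem IsSol.window (h : IsSol α β B D ν T X) (hT : 0 ≤ T) {N M : ℕ} (hNM : N ≤ M)
    {g G : ℝ → ℝ} (hG : ∀ t ∈ Icc 0 T, HasDerivWithinAt G (g t) (Icc 0 T) t)
    (hg : ∀ t ∈ Icc 0 T, 2 * (prev (flux α β B fun k => X k t) N -
      prev (flux α β B fun k => X k t) M) ≤ g t) :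
    ∀ t ∈ Icc 0 T, ∑ n ∈ Finset.Ico N M, (X n t ^ 2 + 2 * ν * diss hT D X n t) ≤
      ∑ n ∈ Finset.Ico N M, X n 0 ^ 2 + (G t - G 0) := by
  intro t ht
  have h1 := increment_le (T := T)
    (h := fun t => ∑ n ∈ Finset.Ico N M, (X n t ^ 2 + 2 * ν * diss hT D X n t))
    (h' := fun t => ∑ n ∈ Finset.Ico N M,
      (2 * (prev (flux α β B fun k => X k t) n - flux α β B (fun k => X k t) n)
        - 2 * ν * (D ^ n * X n t ^ 2) + 2 * ν * (D ^ n * X n t ^ 2)))
    (k := G) (k' := g) ?_ hG ?_ t ht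
  · simp only [diss_zero, mul_zero, add_zero] at h1
    linarith
  · intro t ht
    have := HasDerivWithinAt.sum (u := Finset.Ico N M)
      (A := fun n t => X n t ^ 2 + 2 * ν * diss hT D X n t)
      (fun n _ => (h.sq n ht).add
        ((diss_hasDerivWithinAt (D := D) hT (h.continuousOn n) ht).const_mul (2 * ν)))
    refine this.congr_of_eventuallyEq ?_ ?_
    · filter_upwards with s
      simp [Finset.sum_apply]
    · simp [Finset.sum_apply]
  · intro t ht
    refine le_trans (le_of_eq ?_) (hg t ht)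
    rw [← telescope _ N M hNM, Finset.mul_sum]
    apply Finset.sum_congr rfl
    intro n _
    ring

end Pool.Agent.H39.Dy
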