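import Pool.Agent.H39.Dy.Energy

/-!
# Global regularity of the mixed dyadic system above the Lions threshold

If `ν > 0` and `D ≥ B ≥ 1`, then for all real `α`, `β` and all rapidly decreasing data the mixed dyadic
system has a global solution, rapidly decreasing uniformly on bounded time intervals, with
`B ^ n |X_n(t)|` bounded uniformly in `n` and `t ≥ 0`.
-/

open Set Filter Topology

namespace Pool.Agent.H39.Dy

variable {α β B D ν T : ℝ} {X : ℕ → ℝ → ℝ}

/-- a damped shell under a bounded force -/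
theorem damped {T c F : ℝ} (hc : 0 < c) {y f : ℝ → ℝ}
    (hy : ∀ t ∈ Icc 0 T, HasDerivWithinAt y (f t - c * y t) (Icc 0 T) t)
    (hf : ∀ t ∈ Icc 0 T, |f t| ≤ F) : ∀ t ∈ Icc 0 T, |y t| ≤ |y 0| + F / c := by
  intro t ht
  have h0 : (0 : ℝ) ∈ Icc 0 T := ⟨le_rfl, ht.1.trans ht.2⟩
  have hF : 0 ≤ F := (abs_nonneg _).trans (hf 0 h0)
  have hE : ∀ s, HasDerivWithinAt (fun s => Real.exp (c * s)) (c * Real.exp (c * s)) (Icc 0 T) s := by
    intro s
    have h1 : HasDerivAt (fun s => Real.exp (c * s)) (Real.exp (c * s) * (c * 1)) s :=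
      ((hasDerivAt_id' s).const_mul c).exp
    refine (h1.congr_deriv ?_).hasDerivWithinAt
    ring
  have hG : ∀ s ∈ Icc 0 T, HasDerivWithinAt (fun s => F / c * Real.exp (c * s))
      (F * Real.exp (c * s)) (Icc 0 T) s := by
    intro s _
    refine ((hE s).const_mul (F / c)).congr_deriv ?_
    field_simp
  have h1 : ∀ s ∈ Icc 0 T, HasDerivWithinAt (fun s => Real.exp (c * s) * y s)
      (Real.exp (c * s) * f s) (Icc 0 T) s := by
    intro s hs
    refine ((hE s).mul (hy s hs)).congr_deriv ?_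
    ring
  have h2 : ∀ s ∈ Icc 0 T, HasDerivWithinAt (fun s => - (Real.exp (c * s) * y s))
      (-(Real.exp (c * s) * f s)) (Icc 0 T) s := fun s hs => (h1 s hs).neg
  have e1 := increment_le h1 hG (fun s hs => by
    have := (abs_le.mp (hf s hs)).2
    have := mul_le_mul_of_nonneg_left this (Real.exp_pos (c * s)).le
    linarith) t ht
  have e2 := increment_le h2 hG (fun s hs => by
    have := (abs_le.mp (hf s hs)).1
    have := mul_le_mul_of_nonneg_left this (Real.exp_pos (c * s)).le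
    linarith) t ht
  simp only [mul_zero, Real.exp_zero, one_mul, mul_one] at e1 e2
  have hp := Real.exp_pos (c * t)
  have h1e : 1 ≤ Real.exp (c * t) := Real.one_le_exp (mul_nonneg hc.le ht.1)
  have hFc : 0 ≤ F / c := by positivity
  have h3 : |y 0| ≤ Real.exp (c * t) * |y 0| := le_mul_of_one_le_left (abs_nonneg _) h1e
  have a1 : Real.exp (c * t) * y t ≤ Real.exp (c * t) * (|y 0| + F / c) := by
    have := le_abs_self (y 0)
    nlinarith
  have a2 : Real.exp (c * t) * (-y t) ≤ Real.exp (c * t) * (|y 0| + F / c) := by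
    have := neg_abs_le (y 0)
    nlinarith
  exact abs_le'.mpr ⟨le_of_mul_le_mul_left a1 hp, le_of_mul_le_mul_left a2 hp⟩

theorem lin_le (α β a b R : ℝ) (ha : |a| ≤ R) (hb : |b| ≤ R) : |α * a + β * b| ≤ (|α| + |β|) * R := by
  refine (abs_add_le _ _).trans ?_
  rw [abs_mul, abs_mul, add_mul]
  gcongr

theorem abs_flux_le {x : ℕ → ℝ} {n : ℕ} {R : ℝ} (hB : 0 ≤ B) (h : |x n| ≤ R) (h' : |x (n + 1)| ≤ R) :
    |2 * flux α β B x n| ≤ (|α| + |β|) * R * (B ^ n * (x n ^ 2 + x (n + 1) ^ 2)) := by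
  have hR : 0 ≤ R := (abs_nonneg _).trans h
  have hBn : 0 ≤ B ^ n := by positivity
  have h1 := lin_le α β (x n) (x (n + 1)) R h h'
  have h2 : 2 * (|x n| * |x (n + 1)|) ≤ x n ^ 2 + x (n + 1) ^ 2 := by
    have := sq_nonneg (|x n| - |x (n + 1)|)
    nlinarith [sq_abs (x n), sq_abs (x (n + 1))]
  rw [flux, abs_mul, abs_mul, abs_mul, abs_mul, abs_of_nonneg hBn, abs_two]
  calc 2 * (B ^ n * |x n| * |x (n + 1)| * |α * x n + β * x (n + 1)|)
      = B ^ n * (2 * (|x n| * |x (n + 1)|)) * |α * x n + β * x (n + 1)| := by ring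
    _ ≤ B ^ n * (x n ^ 2 + x (n + 1) ^ 2) * ((|α| + |β|) * R) := by gcongr
    _ = _ := by ring

theorem Rapid.flux_le (hr : Rapid T X) (hT : 0 ≤ T) (hB : 0 < B) :
    ∃ K : ℝ, 0 ≤ K ∧ ∀ n, ∀ t ∈ Icc 0 T, |2 * flux α β B (fun k => X k t) n| ≤ K * (1 / 2) ^ n := by
  obtain ⟨C0, hC0⟩ := hr 1 one_pos
  obtain ⟨C1, hC1⟩ := hr (2 * B) (by positivity)
  have h0 : (0 : ℝ) ∈ Icc 0 T := ⟨le_rfl, hT⟩
  have hc0 : 0 ≤ C0 := (mul_nonneg (by positivity) (abs_nonneg _)).trans (hC0 0 0 h0)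
  have hc1 : 0 ≤ C1 := (mul_nonneg (by positivity) (abs_nonneg _)).trans (hC1 0 0 h0)
  refine ⟨2 * (C1 * C0 * ((|α| + |β|) * C0)), by positivity, fun n t ht => ?_⟩
  have b0 : ∀ n, |X n t| ≤ C0 := fun n => by simpa using hC0 n t ht
  have hBn : 0 < B ^ n := by positivity
  have b1 : B ^ n * |X n t| ≤ C1 * (1 / 2) ^ n := by
    have := hC1 n t ht
    rw [mul_pow] at this
    rw [one_div, inv_pow, ← div_eq_mul_inv, le_div_iff₀ (by positivity)]
    linarith
  have h1 := lin_le α β (X n t) (X (n + 1) t) C0 (b0 n) (b0 _)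
  simp only [flux]
  rw [abs_mul, abs_mul, abs_mul, abs_mul, abs_of_pos hBn, abs_two]
  calc 2 * (B ^ n * |X n t| * |X (n + 1) t| * |α * X n t + β * X (n + 1) t|)
      ≤ 2 * (C1 * (1 / 2) ^ n * C0 * ((|α| + |β|) * C0)) := by
        gcongr
        exact b0 _
    _ = _ := by ring

theorem IsSol.tail (h : IsSol α β B D ν T X) (hr : Rapid T X) (hT : 0 ≤ T) (hB : 0 < B) (hD : 0 ≤ D)
    (hν : 0 ≤ ν) {N : ℕ} {S : ℝ} (hS : ∀ M, ∑ n ∈ Finset.Ico N M, X n 0 ^ 2 ≤ S)
    {g G : ℝ → ℝ} (hG : ∀ t ∈ Icc 0 T, HasDerivWithinAt G (g t) (Icc 0 T) t)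
    (hg : ∀ t ∈ Icc 0 T, 2 * prev (flux α β B fun k => X k t) N ≤ g t) (M : ℕ) :
    ∀ t ∈ Icc 0 T, ∑ n ∈ Finset.Ico N M, (X n t ^ 2 + 2 * ν * diss hT D X n t) ≤
      S + (G t - G 0) := by
  intro t ht
  obtain ⟨K, hK0, hK⟩ := hr.flux_le (α := α) (β := β) hT hB
  have key : ∀ m, max N M ≤ m → ∑ n ∈ Finset.Ico N M, (X n t ^ 2 + 2 * ν * diss hT D X n t) ≤
      S + (G t - G 0) + K * (1 / 2) ^ m * T := by
    intro m hm
    have hNm : N ≤ m + 1 := (le_max_left _ _).trans (hm.trans (Nat.le_succ _))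
    have hMm : M ≤ m + 1 := (le_max_right _ _).trans (hm.trans (Nat.le_succ _))
    have h1 := h.window hT hNm (G := fun t => G t + K * (1 / 2) ^ m * t)
      (g := fun t => g t + K * (1 / 2) ^ m) (fun s hs => by
        refine (hG s hs).add ?_
        have := ((hasDerivAt_id' s).const_mul (K * (1 / 2) ^ m)).hasDerivWithinAt (s := Icc 0 T)
        simpa using this) (fun s hs => by
        have a1 := hg s hs
        have a2 := (abs_le.mp (hK m s hs)).1
        have e : prev (flux α β B fun k => X k s) (m + 1) = flux α β B (fun k => X k s) m := rfl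
        rw [e]
        linarith) t ht
    have h2 : ∑ n ∈ Finset.Ico N M, (X n t ^ 2 + 2 * ν * diss hT D X n t) ≤
        ∑ n ∈ Finset.Ico N (m + 1), (X n t ^ 2 + 2 * ν * diss hT D X n t) := by
      apply Finset.sum_le_sum_of_subset_of_nonneg
      · intro n hn
        simp only [Finset.mem_Ico] at hn ⊢
        omega
      · intro n _ _
        have := diss_nonneg hT hD X n ht.1
        positivity
    have h3 := hS (m + 1)
    have h4 : K * (1 / 2) ^ m * t ≤ K * (1 / 2) ^ m * T := by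
      gcongr
      exact ht.2
    simp only [mul_zero, add_zero] at h1
    linarith
  have hlim : Tendsto (fun m : ℕ => S + (G t - G 0) + K * (1 / 2) ^ m * T) atTop
      (𝓝 (S + (G t - G 0) + K * 0 * T)) := by
    refine Tendsto.const_add _ (Tendsto.mul_const _ (Tendsto.const_mul _ ?_))
    exact tendsto_pow_atTop_nhds_zero_of_lt_one (by norm_num) (by norm_num)
  rw [mul_zero, zero_mul, add_zero] at hlim
  exact ge_of_tendsto hlim ((eventually_ge_atTop (max N M)).mono key)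

theorem sum_data_le {x : ℕ → ℝ} {C : ℝ} (hx : ∀ n, 2 ^ n * |x n| ≤ C) (N M : ℕ) :
    ∑ n ∈ Finset.Ico N M, x n ^ 2 ≤ 4 / 3 * C ^ 2 * (1 / 4) ^ N := by
  have hC : 0 ≤ C := (mul_nonneg (by positivity) (abs_nonneg _)).trans (hx 0)
  rcases Nat.lt_or_ge M N with h | h
  · rw [Finset.Ico_eq_empty_of_le h.le]
    simp only [Finset.sum_empty]
    positivity
  · have key : ∑ n ∈ Finset.Ico N M, x n ^ 2 ≤ 4 / 3 * C ^ 2 * ((1 / 4) ^ N - (1 / 4) ^ M) := by
      induction M, h using Nat.le_induction with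
      | base => simp
      | succ M hM ih =>
        rw [Finset.sum_Ico_succ_top hM]
        have h1 : x M ^ 2 ≤ C ^ 2 * (1 / 4) ^ M := by
          have h2 : (2 ^ M * |x M|) ^ 2 ≤ C ^ 2 := by
            gcongr
            exact hx M
          rw [mul_pow, sq_abs, ← pow_mul, mul_comm M 2, pow_mul] at h2
          rw [one_div, inv_pow, ← div_eq_mul_inv, le_div_iff₀ (by positivity)]
          norm_num at h2
          linarith
        rw [pow_succ (1 / 4 : ℝ) M]
        linarith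
    have : 0 ≤ 4 / 3 * C ^ 2 * (1 / 4) ^ M := by positivity
    linarith

/-- `R`-bound of all shells and bound of the total dissipation, from the energy inequality -/
theorem IsSol.energy (h : IsSol α β B D ν T X) (hr : Rapid T X) (hT : 0 ≤ T) (hB : 0 < B) (hD : 0 ≤ D)
    (hν : 0 ≤ ν) {C : ℝ} (hx : ∀ n, 2 ^ n * |X n 0| ≤ C) (M : ℕ) :
    ∀ t ∈ Icc 0 T, ∑ n ∈ Finset.Ico 0 M, (X n t ^ 2 + 2 * ν * diss hT D X n t) ≤ 4 / 3 * C ^ 2 := by
  intro t ht
  have := h.tail hr hT hB hD hν (N := 0) (S := 4 / 3 * C ^ 2) (fun M => by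
    simpa using sum_data_le hx 0 M) (g := fun _ => 0) (G := fun _ => 0)
    (fun t _ => hasDerivWithinAt_const _ _ _) (fun t _ => by simp [prev]) M t ht
  simpa using this

theorem IsSol.abs_le_of_data (h : IsSol α β B D ν T X) (hr : Rapid T X) (hT : 0 ≤ T) (hB : 0 < B)
    (hD : 0 ≤ D) (hν : 0 ≤ ν) {C : ℝ} (hx : ∀ n, 2 ^ n * |X n 0| ≤ C) (n : ℕ) :
    ∀ t ∈ Icc 0 T, |X n t| ≤ 2 * C := by
  intro t ht
  have hC : 0 ≤ C := (mul_nonneg (by positivity) (abs_nonneg _)).trans (hx 0)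
  have h1 := h.energy hr hT hB hD hν hx (n + 1) t ht
  have h2 : X n t ^ 2 + 2 * ν * diss hT D X n t ≤
      ∑ n ∈ Finset.Ico 0 (n + 1), (X n t ^ 2 + 2 * ν * diss hT D X n t) :=
    Finset.single_le_sum (f := fun n => X n t ^ 2 + 2 * ν * diss hT D X n t)
      (fun n _ => by
        have := diss_nonneg hT hD X n ht.1
        positivity) (by simp)
  have h3 := diss_nonneg hT hD X n ht.1
  have h4 : 0 ≤ 2 * ν * diss hT D X n t := by positivity
  apply abs_le_of_sq_le_sq _ (by positivity)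
  nlinarith

theorem IsSol.diss_le (h : IsSol α β B D ν T X) (hr : Rapid T X) (hT : 0 ≤ T) (hB : 0 < B)
    (hD : 0 ≤ D) (hν : 0 < ν) {C : ℝ} (hx : ∀ n, 2 ^ n * |X n 0| ≤ C) (M : ℕ) :
    ∑ n ∈ Finset.range M, diss hT D X n T ≤ C ^ 2 / ν := by
  have h1 := h.energy hr hT hB hD hν.le hx M T ⟨hT, le_rfl⟩
  rw [← Finset.range_eq_Ico, Finset.sum_add_distrib, ← Finset.mul_sum] at h1
  have h2 : 0 ≤ ∑ n ∈ Finset.range M, X n T ^ 2 := Finset.sum_nonneg fun n _ => sq_nonneg _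
  rw [le_div_iff₀ hν]
  nlinarith [sq_nonneg C]

/-- smallness of the high shells, uniformly in `T` -/
theorem IsSol.small (hB : 1 ≤ B) (hD : B ≤ D) (hν : 0 < ν) (α β C : ℝ) (hC : 0 ≤ C) {δ : ℝ} (hδ : 0 < δ) :
    ∃ Nmax : ℕ, ∀ T : ℝ, 0 ≤ T → ∀ X : ℕ → ℝ → ℝ, IsSol α β B D ν T X → Rapid T X →
      (∀ n, 2 ^ n * |X n 0| ≤ C) → ∃ N ≤ Nmax, ∀ n, N ≤ n → ∀ t ∈ Icc 0 T, |X n t| ≤ δ := by
  have hB0 : 0 < B := by linarith
  have hD0 : 0 ≤ D := by linarith
  have hD1 : 1 ≤ D := hB.trans hD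
  set Λ := |α| + |β| with hΛ
  have hΛ0 : 0 ≤ Λ := by positivity
  -- first the tail of the data
  obtain ⟨N₀, hN₀⟩ : ∃ N₀ : ℕ, 4 / 3 * C ^ 2 * (1 / 4) ^ N₀ ≤ δ ^ 2 / 2 := by
    have hlim : Tendsto (fun m : ℕ => 4 / 3 * C ^ 2 * (1 / 4) ^ m) atTop (𝓝 (4 / 3 * C ^ 2 * 0)) :=
      Tendsto.const_mul _ (tendsto_pow_atTop_nhds_zero_of_lt_one (by norm_num) (by norm_num))
    rw [mul_zero] at hlim
    obtain ⟨N₀, h⟩ := ((tendsto_order.mp hlim).2 (δ ^ 2 / 2) (by positivity)).exists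
    exact ⟨N₀, h.le⟩
  -- number of windows
  obtain ⟨J, hJ⟩ := exists_nat_gt (Λ * (2 * C) * (2 * (C ^ 2 / ν)) / (δ ^ 2 / 2))
  have hJ0 : (0 : ℝ) < J := lt_of_le_of_lt (by positivity) hJ
  refine ⟨N₀ + J, fun T hT X h hr hx => ?_⟩
  have hsum : ∑ j ∈ Finset.range J, (diss hT D X (N₀ + j) T + diss hT D X (N₀ + j + 1) T) ≤
      ∑ j ∈ Finset.range J, (2 * (C ^ 2 / ν)) / J := by
    have hd : ∀ n, 0 ≤ diss hT D X n T := fun n => diss_nonneg hT hD0 X n hT
    have h1 : ∑ j ∈ Finset.range J, diss hT D X (N₀ + j) T ≤ C ^ 2 / ν := by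
      refine le_trans ?_ (h.diss_le hr hT hB0 hD0 hν hx (N₀ + J))
      rw [Finset.sum_range_add]
      have : 0 ≤ ∑ x ∈ Finset.range N₀, diss hT D X x T := Finset.sum_nonneg fun n _ => hd n
      linarith
    have h2 : ∑ j ∈ Finset.range J, diss hT D X (N₀ + j + 1) T ≤ C ^ 2 / ν := by
      refine le_trans ?_ (h.diss_le hr hT hB0 hD0 hν hx (N₀ + 1 + J))
      rw [Finset.sum_range_add _ (N₀ + 1) J]
      have : 0 ≤ ∑ x ∈ Finset.range (N₀ + 1), diss hT D X x T := Finset.sum_nonneg fun n _ => hd n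
      have e : ∀ j, N₀ + j + 1 = N₀ + 1 + j := fun j => by ring
      simp only [e]
      linarith
    rw [Finset.sum_add_distrib, Finset.sum_const, Finset.card_range, nsmul_eq_mul,
      mul_div_cancel₀ _ hJ0.ne']
    linarith
  obtain ⟨j, hj, hjle⟩ := Finset.exists_le_of_sum_le (by
    rw [Finset.nonempty_range_iff]
    rintro rfl
    simp at hJ0) hsum
  rw [Finset.mem_range] at hj
  refine ⟨N₀ + j + 1, by omega, fun n hn t ht => ?_⟩
  have hR : ∀ n, ∀ t ∈ Icc 0 T, |X n t| ≤ 2 * C := fun n => h.abs_le_of_data hr hT hB0 hD0 hν.le hx n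
  have h1 := h.tail hr hT hB0 hD0 hν.le (N := N₀ + j + 1) (S := 4 / 3 * C ^ 2 * (1 / 4) ^ N₀)
    (fun M => (sum_data_le hx _ _).trans (by
      have : ((1 : ℝ) / 4) ^ (N₀ + j + 1) ≤ (1 / 4) ^ N₀ :=
        pow_le_pow_of_le_one (by norm_num) (by norm_num) (by omega)
      gcongr))
    (g := fun t => Λ * (2 * C) * (D ^ (N₀ + j) * X (N₀ + j) t ^ 2 +
      D ^ (N₀ + j + 1) * X (N₀ + j + 1) t ^ 2))
    (G := fun t => Λ * (2 * C) * (diss hT D X (N₀ + j) t + diss hT D X (N₀ + j + 1) t))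
    (fun t ht => ((diss_hasDerivWithinAt hT (h.continuousOn _) ht).add
      (diss_hasDerivWithinAt hT (h.continuousOn _) ht)).const_mul _) (fun t ht => by
      have h2 := abs_flux_le (α := α) (β := β) (B := B) (x := fun k => X k t) (n := N₀ + j)
        hB0.le (hR _ t ht) (hR _ t ht)
      have h3 := (abs_le.mp h2).2
      simp only [prev]
      refine h3.trans ?_
      have hBD : B ^ (N₀ + j) ≤ D ^ (N₀ + j) := pow_le_pow_left₀ hB0.le hD _
      have hDD : D ^ (N₀ + j) ≤ D ^ (N₀ + j + 1) := pow_le_pow_right₀ hD1 (by omega)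
      rw [mul_add]
      gcongr
      exact hBD.trans hDD) (n + 1) t ht
  simp only [diss_zero, add_zero, mul_zero, sub_zero] at h1
  have h2 : X n t ^ 2 + 2 * ν * diss hT D X n t ≤
      ∑ n ∈ Finset.Ico (N₀ + j + 1) (n + 1), (X n t ^ 2 + 2 * ν * diss hT D X n t) :=
    Finset.single_le_sum (f := fun n => X n t ^ 2 + 2 * ν * diss hT D X n t)
      (fun n _ => by
        have := diss_nonneg hT hD0 X n ht.1
        positivity) (by simp only [Finset.mem_Ico]; omega)
  have h3 := diss_nonneg hT hD0 X n ht.1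
  have h4 : 0 ≤ 2 * ν * diss hT D X n t := by positivity
  have hmono : ∀ n, diss hT D X n t ≤ diss hT D X n T := by
    intro n
    have hc : Continuous fun s => D ^ n * (X n (projIcc 0 T hT s)) ^ 2 := by
      have h1 : Continuous fun s => X n (projIcc 0 T hT s) :=
        ((h.continuousOn n).domRestrict).comp continuous_projIcc
      exact continuous_const.mul (h1.pow 2)
    have e : diss hT D X n T = diss hT D X n t +
        ∫ s in t..T, D ^ n * (X n (projIcc 0 T hT s)) ^ 2 := by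
      rw [diss, diss, intervalIntegral.integral_add_adjacent_intervals
        (hc.intervalIntegrable _ _) (hc.intervalIntegrable _ _)]
    have : 0 ≤ ∫ s in t..T, D ^ n * (X n (projIcc 0 T hT s)) ^ 2 :=
      intervalIntegral.integral_nonneg ht.2 fun s _ => by positivity
    linarith
  have h5 : Λ * (2 * C) * (diss hT D X (N₀ + j) t + diss hT D X (N₀ + j + 1) t) ≤ δ ^ 2 / 2 := by
    have h6 : diss hT D X (N₀ + j) t + diss hT D X (N₀ + j + 1) t ≤ 2 * (C ^ 2 / ν) / J :=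
      (add_le_add (hmono _) (hmono _)).trans hjle
    refine (mul_le_mul_of_nonneg_left h6 (by positivity)).trans ?_
    rw [div_lt_iff₀ (by positivity)] at hJ
    rw [mul_div_assoc', div_le_iff₀ hJ0]
    linarith
  apply abs_le_of_sq_le_sq _ hδ.le
  nlinarith

/-- **A priori bound**, uniform in time. -/
theorem apriori (hB : 1 ≤ B) (hD : B ≤ D) (hν : 0 < ν) (α β : ℝ) {x : ℕ → ℝ}
    (hx : ∀ s : ℝ, 0 < s → ∃ C : ℝ, ∀ n, s ^ n * |x n| ≤ C) :
    ∃ K : ℝ, ∀ T : ℝ, 0 ≤ T → ∀ X : ℕ → ℝ → ℝ, (∀ n, X n 0 = x n) → IsSol α β B D ν T X →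
      Rapid T X → ∀ n, ∀ t ∈ Icc 0 T, B ^ n * |X n t| ≤ K := by
  have hB0 : 0 < B := by linarith
  have hD0 : 0 < D := by linarith
  obtain ⟨C, hC⟩ := hx 2 two_pos
  obtain ⟨A, hA⟩ := hx B hB0
  have hC0 : 0 ≤ C := (mul_nonneg (by positivity) (abs_nonneg _)).trans (hC 0)
  have hA0 : 0 ≤ A := (mul_nonneg (by positivity) (abs_nonneg _)).trans (hA 0)
  set Λ := |α| + |β| with hΛ
  have hΛ0 : 0 ≤ Λ := by positivity
  set δ := ν / (4 * (Λ + 1)) with hδ
  have hδ0 : 0 < δ := by positivity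
  have hδ1 : 2 * Λ * δ ≤ ν / 2 := by
    rw [hδ, mul_div_assoc', div_le_iff₀ (by positivity)]
    nlinarith
  obtain ⟨Nmax, hNmax⟩ := IsSol.small hB hD hν α β C hC0 hδ0
  refine ⟨2 * A + B ^ Nmax * (2 * C), fun T hT X hX h hr => ?_⟩
  have hxC : ∀ n, 2 ^ n * |X n 0| ≤ C := fun n => by rw [hX]; exact hC n
  obtain ⟨N, hN, hsm⟩ := hNmax T hT X h hr hxC
  have hlow : ∀ n, n ≤ N → ∀ t ∈ Icc 0 T, B ^ n * |X n t| ≤ B ^ Nmax * (2 * C) := by
    intro n hn t ht
    have h1 := h.abs_le_of_data hr hT hB0 hD0.le hν.le hxC n t ht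
    have h2 : B ^ n ≤ B ^ Nmax := pow_le_pow_right₀ hB (hn.trans hN)
    gcongr
  set P := B ^ Nmax * (2 * C) with hP
  have hP0 : 0 ≤ P := by positivity
  obtain ⟨C₀, hC₀⟩ := hr B hB0
  have hC₀0 : 0 ≤ C₀ := (mul_nonneg (by positivity) (abs_nonneg _)).trans (hC₀ 0 0 ⟨le_rfl, hT⟩)
  have key : ∀ k : ℕ, ∀ n, ∀ t ∈ Icc 0 T, B ^ n * |X n t| ≤ 2 * A + P + C₀ * (1 / 2) ^ k := by
    intro k
    induction k with
    | zero =>
      intro n t ht
      have := hC₀ n t ht
      simp only [pow_zero, mul_one]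
      linarith
    | succ k ih =>
      intro n t ht
      rcases Nat.lt_or_ge N n with hn | hn
      swap
      · have := hlow n hn t ht
        have h2 : 0 ≤ C₀ * (1 / 2) ^ (k + 1) := by positivity
        linarith
      · obtain ⟨m, rfl⟩ : ∃ m, n = m + 1 := ⟨n - 1, by omega⟩
        have hm : N ≤ m := by omega
        set Q := 2 * A + P + C₀ * (1 / 2) ^ k with hQ
        have hQ0 : 0 ≤ Q := by positivity
        have hc : 0 < ν * D ^ (m + 1) := by positivity
        have h1 := damped (T := T) (F := 2 * Λ * δ * Q) (y := X (m + 1)) hc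
          (f := fun t => B ^ m * X m t * (α * X m t + β * X (m + 1) t) -
            B ^ (m + 1) * X (m + 2) t * (α * X (m + 1) t + β * X (m + 2) t))
          (fun s hs => (h (m + 1) s hs).congr_deriv (by simp only [gain]; ring))
          (fun s hs => by
            have a1 : |B ^ m * X m s * (α * X m s + β * X (m + 1) s)| ≤ Q * (Λ * δ) := by
              rw [abs_mul, abs_mul, abs_of_pos (by positivity : 0 < B ^ m)]
              have b1 := ih m s hs
              have b2 := lin_le α β (X m s) (X (m + 1) s) δ (hsm m hm s hs) (hsm _ (by omega) s hs)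
              gcongr
            have a2 : |B ^ (m + 1) * X (m + 2) s * (α * X (m + 1) s + β * X (m + 2) s)| ≤
                Q * (Λ * δ) := by
              rw [abs_mul, abs_mul, abs_of_pos (by positivity : 0 < B ^ (m + 1))]
              have b1 := ih (m + 2) s hs
              have b2 := lin_le α β (X (m + 1) s) (X (m + 2) s) δ (hsm _ (by omega) s hs)
                (hsm _ (by omega) s hs)
              have b3 : B ^ (m + 1) * |X (m + 2) s| ≤ Q := by
                refine le_trans ?_ b1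
                have : B ^ (m + 1) ≤ B ^ (m + 2) := pow_le_pow_right₀ hB (by omega)
                gcongr
              gcongr
            calc _ ≤ _ := abs_sub _ _
              _ ≤ Q * (Λ * δ) + Q * (Λ * δ) := add_le_add a1 a2
              _ = 2 * Λ * δ * Q := by ring) t ht
        have hBp : 0 < B ^ (m + 1) := by positivity
        have hBD : B ^ (m + 1) ≤ D ^ (m + 1) := pow_le_pow_left₀ hB0.le hD _
        have h2 : B ^ (m + 1) * (2 * Λ * δ * Q / (ν * D ^ (m + 1))) ≤ Q / 2 := by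
          rw [mul_div_assoc', div_le_iff₀ hc]
          calc B ^ (m + 1) * (2 * Λ * δ * Q) = (2 * Λ * δ) * Q * B ^ (m + 1) := by ring
            _ ≤ (ν / 2) * Q * D ^ (m + 1) := by gcongr
            _ = _ := by ring
        have h3 := hA (m + 1)
        have h4 := mul_le_mul_of_nonneg_left h1 hBp.le
        rw [hX, mul_add] at h4
        rw [pow_succ (1 / 2 : ℝ) k]
        rw [hQ] at h2 h4
        linarith
  intro n t ht
  have hlim : Tendsto (fun k : ℕ => 2 * A + P + C₀ * (1 / 2) ^ k) atTop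
      (𝓝 (2 * A + P + C₀ * 0)) :=
    Tendsto.const_add _ (Tendsto.const_mul _
      (tendsto_pow_atTop_nhds_zero_of_lt_one (by norm_num) (by norm_num)))
  rw [mul_zero, add_zero] at hlim
  exact ge_of_tendsto hlim (Eventually.of_forall fun k => key k n t ht)

/-- **Global regularity for `D ≥ B ≥ 1`.** -/
theorem global (α β : ℝ) (hB : 1 ≤ B) (hD : B ≤ D) (hν : 0 < ν) {x : ℕ → ℝ}
    (hx : ∀ s : ℝ, 0 < s → ∃ C : ℝ, ∀ n, s ^ n * |x n| ≤ C) :
    ∃ X : ℕ → ℝ → ℝ, (∀ n, X n 0 = x n) ∧ (∀ T, 0 ≤ T → IsSol α β B D ν T X ∧ Rapid T X) ∧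
      ∃ K : ℝ, ∀ n, ∀ t, 0 ≤ t → B ^ n * |X n t| ≤ K := by
  obtain ⟨K, hK⟩ := apriori hB hD hν α β hx
  rcases wellposed α β (by linarith : 0 < B) (by linarith : 0 ≤ D) hν.le hx with
    ⟨X, hX, h⟩ | ⟨T₀, hT₀, X, hX, h, hunb⟩
  · exact ⟨X, hX, h, K, fun n t ht => hK t ht X hX (h t ht).1 (h t ht).2 n t ⟨ht, le_rfl⟩⟩
  · exfalso
    obtain ⟨n, t, ht, hlt⟩ := hunb K
    exact absurd (hK t ht.1 X hX (h t ht.1 ht.2).1 (h t ht.1 ht.2).2 n t ⟨ht.1, le_rfl⟩)
      (not_le.mpr hlt)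

end Pool.Agent.H39.Dy
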