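import Pool.Agent.H39.Dy.Global

/-!
# The energy identity of the mixed dyadic system

For rapidly decreasing solutions, `∑ X_n(t)² + 2 ν ∑ ∫₀ᵗ D ^ n X_n(s)² ds = ∑ X_n(0)²`; in particular the
energy does not increase.
-/

open Set Filter Topology

namespace Pool.Agent.H39.Dy

variable {α β B D ν T : ℝ} {X : ℕ → ℝ → ℝ}

theorem diss_eq (hT : 0 ≤ T) {t : ℝ} (ht : t ∈ Icc 0 T) (n : ℕ) :
    diss hT D X n t = ∫ s in (0 : ℝ)..t, D ^ n * X n s ^ 2 := by
  apply intervalIntegral.integral_congr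
  intro s hs
  rw [uIcc_of_le ht.1] at hs
  simp only
  rw [projIcc_of_mem hT ⟨hs.1, hs.2.trans ht.2⟩]

theorem Rapid.abs_le (hr : Rapid T X) (hT : 0 ≤ T) :
    ∃ C : ℝ, 0 ≤ C ∧ ∀ n, ∀ t ∈ Icc 0 T, 2 ^ n * |X n t| ≤ C := by
  obtain ⟨C, hC⟩ := hr 2 two_pos
  exact ⟨C, (mul_nonneg (by positivity) (abs_nonneg _)).trans (hC 0 0 ⟨le_rfl, hT⟩), hC⟩

theorem summable_sq {x : ℕ → ℝ} {C : ℝ} (hx : ∀ n, 2 ^ n * |x n| ≤ C) :
    Summable fun n => x n ^ 2 := by
  apply summable_of_sum_range_le (c := 4 / 3 * C ^ 2) (fun n => sq_nonneg _)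
  intro n
  have := sum_data_le hx 0 n
  simpa using this

/-- **Energy identity.** -/
theorem IsSol.energy_identity (h : IsSol α β B D ν T X) (hr : Rapid T X) (hB : 0 < B)
    (hD : 0 ≤ D) (hν : 0 ≤ ν) : ∀ t ∈ Icc 0 T,
    HasSum (fun n => X n t ^ 2 + 2 * ν * ∫ s in (0 : ℝ)..t, D ^ n * X n s ^ 2)
      (∑' n, X n 0 ^ 2) := by
  intro t ht
  have hT : 0 ≤ T := ht.1.trans ht.2
  obtain ⟨C, hC0, hC⟩ := hr.abs_le hT
  obtain ⟨K, hK0, hK⟩ := hr.flux_le (α := α) (β := β) hT hB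
  have h00 : (0 : ℝ) ∈ Icc 0 T := ⟨le_rfl, hT⟩
  simp only [← diss_eq hT ht]
  rw [hasSum_iff_tendsto_nat_of_nonneg]
  swap
  · intro n
    have := diss_nonneg hT hD X n ht.1
    positivity
  have hs : Tendsto (fun M => ∑ n ∈ Finset.range M, X n 0 ^ 2) atTop (𝓝 (∑' n, X n 0 ^ 2)) :=
    (summable_sq fun n => hC n 0 h00).hasSum.tendsto_sum_nat
  have hlim : Tendsto (fun m : ℕ => K * (1 / 2) ^ m * T) atTop (𝓝 (K * 0 * T)) :=
    Tendsto.mul_const _ (Tendsto.const_mul _
      (tendsto_pow_atTop_nhds_zero_of_lt_one (by norm_num) (by norm_num)))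
  rw [mul_zero, zero_mul] at hlim
  rw [← tendsto_add_atTop_iff_nat 1] at hs ⊢
  have hdiff : ∀ m : ℕ, |∑ n ∈ Finset.range (m + 1), (X n t ^ 2 + 2 * ν * diss hT D X n t) -
      ∑ n ∈ Finset.range (m + 1), X n 0 ^ 2| ≤ K * (1 / 2) ^ m * T := by
    intro m
    have hb : K * (1 / 2) ^ m * t ≤ K * (1 / 2) ^ m * T := by
      gcongr
      exact ht.2
    have hd : ∀ s ∈ Icc 0 T, HasDerivWithinAt
        (fun t => ∑ n ∈ Finset.range (m + 1), (X n t ^ 2 + 2 * ν * diss hT D X n t))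
        (-(2 * flux α β B (fun k => X k s) m)) (Icc 0 T) s := by
      intro s hs
      have := HasDerivWithinAt.sum (u := Finset.Ico 0 (m + 1))
        (A := fun n t => X n t ^ 2 + 2 * ν * diss hT D X n t)
        (fun n _ => (h.sq n hs).add
          ((diss_hasDerivWithinAt (D := D) hT (h.continuousOn n) hs).const_mul (2 * ν)))
      refine (this.congr_of_eventuallyEq ?_ ?_).congr_deriv ?_
      · filter_upwards with s
        simp [Finset.sum_apply]
      · simp [Finset.sum_apply]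
      · have e : ∀ n, 2 * (prev (flux α β B fun k => X k s) n - flux α β B (fun k => X k s) n) -
            2 * ν * (D ^ n * X n s ^ 2) + 2 * ν * (D ^ n * X n s ^ 2) =
            2 * (prev (flux α β B fun k => X k s) n - flux α β B (fun k => X k s) n) :=
          fun n => by ring
        simp only [e]
        rw [← Finset.mul_sum, telescope _ 0 (m + 1) (Nat.zero_le _)]
        simp only [prev]
        ring
    have hlin : ∀ s ∈ Icc 0 T, HasDerivWithinAt (fun s => K * (1 / 2) ^ m * s) (K * (1 / 2) ^ m)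
        (Icc 0 T) s := by
      intro s _
      have := ((hasDerivAt_id' s).const_mul (K * (1 / 2) ^ m)).hasDerivWithinAt (s := Icc 0 T)
      simpa using this
    have e1 := increment_le hd hlin (fun s hs => by
      have := (abs_le.mp (hK m s hs)).1
      linarith) t ht
    have e2 := increment_le (fun s hs => (hd s hs).neg) hlin (fun s hs => by
      have := (abs_le.mp (hK m s hs)).2
      linarith) t ht
    simp only [diss_zero, mul_zero, add_zero, sub_zero, Pi.neg_apply] at e1 e2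
    rw [abs_le]
    constructor <;> linarith
  have hz : Tendsto (fun m => ∑ n ∈ Finset.range (m + 1), (X n t ^ 2 + 2 * ν * diss hT D X n t) -
      ∑ n ∈ Finset.range (m + 1), X n 0 ^ 2) atTop (𝓝 0) :=
    squeeze_zero_norm (fun m => by rw [Real.norm_eq_abs]; exact hdiff m) hlim
  simpa using hz.add hs

/-- The energy does not increase. -/
theorem IsSol.energy_antitone (h : IsSol α β B D ν T X) (hr : Rapid T X) (hB : 0 < B)
    (hD : 0 ≤ D) (hν : 0 ≤ ν) : AntitoneOn (fun t => ∑' n, X n t ^ 2) (Icc 0 T) := by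
  intro s hs t ht hst
  have hT : 0 ≤ T := ht.1.trans ht.2
  obtain ⟨C, hC0, hC⟩ := hr.abs_le hT
  have hsum : ∀ t ∈ Icc 0 T, Summable fun n => X n t ^ 2 :=
    fun t ht => summable_sq fun n => hC n t ht
  have hs1 := h.energy_identity hr hB hD hν s hs
  have ht1 := h.energy_identity hr hB hD hν t ht
  have ds : Summable fun n => 2 * ν * ∫ r in (0 : ℝ)..s, D ^ n * X n r ^ 2 := by
    simpa using hs1.summable.sub (hsum s hs)
  have dt : Summable fun n => 2 * ν * ∫ r in (0 : ℝ)..t, D ^ n * X n r ^ 2 := by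
    simpa using ht1.summable.sub (hsum t ht)
  have e1 := hs1.tsum_eq
  have e2 := ht1.tsum_eq
  rw [(hsum s hs).tsum_add ds] at e1
  rw [(hsum t ht).tsum_add dt] at e2
  have hle : ∑' n, 2 * ν * ∫ r in (0 : ℝ)..s, D ^ n * X n r ^ 2 ≤
      ∑' n, 2 * ν * ∫ r in (0 : ℝ)..t, D ^ n * X n r ^ 2 := by
    refine ds.tsum_le_tsum (fun n => ?_) dt
    have hi : ∀ a ∈ Icc 0 T, ∀ b ∈ Icc 0 T,
        IntervalIntegrable (fun r => D ^ n * X n r ^ 2) MeasureTheory.volume a b := by
      intro a ha b hb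
      apply ContinuousOn.intervalIntegrable
      refine ContinuousOn.mono ?_ (uIcc_subset_Icc ha hb)
      exact continuousOn_const.mul ((h.continuousOn n).pow 2)
    have h0 : (0 : ℝ) ∈ Icc 0 T := ⟨le_rfl, hT⟩
    have e : ∫ r in (0 : ℝ)..t, D ^ n * X n r ^ 2 = (∫ r in (0 : ℝ)..s, D ^ n * X n r ^ 2) +
        ∫ r in s..t, D ^ n * X n r ^ 2 :=
      (intervalIntegral.integral_add_adjacent_intervals (hi 0 h0 s hs) (hi s hs t ht)).symm
    have : 0 ≤ ∫ r in s..t, D ^ n * X n r ^ 2 :=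
      intervalIntegral.integral_nonneg hst fun r _ => by positivity
    rw [e]
    have : 0 ≤ 2 * ν * ∫ r in s..t, D ^ n * X n r ^ 2 := by positivity
    linarith
  simp only
  linarith

end Pool.Agent.H39.Dy
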