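import Pool.Agent.H39.Dy.Basic

/-!
Local existence for dyadic models in the scale invariant sup norm (after rescaling the unknowns by
`B ^ n` the nonlinearity has constant coefficients).
-/

open Set Filter Topology MeasureTheory intervalIntegral

namespace Pool.Agent.H39.Dy

/-- the quadratic coupling of three consecutive shells -/
def Q (a b c d p y z : ℝ) : ℝ := a * p ^ 2 + b * p * y + c * y * z + d * z ^ 2

theorem Q_bound {a b c d p y z R : ℝ} (hp : |p| ≤ R) (hy : |y| ≤ R) (hz : |z| ≤ R) :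
    |Q a b c d p y z| ≤ (|a| + |b| + |c| + |d|) * R ^ 2 := by
  have hR : 0 ≤ R := (abs_nonneg _).trans hp
  have h1 : |a * p ^ 2| ≤ |a| * R ^ 2 := by
    rw [abs_mul, abs_pow]
    gcongr
  have h2 : |b * p * y| ≤ |b| * R ^ 2 := by
    rw [abs_mul, abs_mul, mul_assoc, pow_two]
    gcongr
  have h3 : |c * y * z| ≤ |c| * R ^ 2 := by
    rw [abs_mul, abs_mul, mul_assoc, pow_two]
    gcongr
  have h4 : |d * z ^ 2| ≤ |d| * R ^ 2 := by
    rw [abs_mul, abs_pow]
    gcongr
  unfold Q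
  calc |a * p ^ 2 + b * p * y + c * y * z + d * z ^ 2|
      ≤ |a * p ^ 2| + |b * p * y| + |c * y * z| + |d * z ^ 2| := by
        refine (abs_add_le _ _).trans ?_
        gcongr
        refine (abs_add_le _ _).trans ?_
        gcongr
        exact abs_add_le _ _
    _ ≤ _ := by linarith

theorem Q_lip {a b c d p y z p' y' z' R δ : ℝ} (hp : |p| ≤ R) (hy : |y| ≤ R) (hz : |z| ≤ R)
    (hp' : |p'| ≤ R) (hy' : |y'| ≤ R) (hz' : |z'| ≤ R)
    (dp : |p - p'| ≤ δ) (dy : |y - y'| ≤ δ) (dz : |z - z'| ≤ δ) :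
    |Q a b c d p y z - Q a b c d p' y' z'| ≤ 2 * (|a| + |b| + |c| + |d|) * R * δ := by
  have hR : 0 ≤ R := (abs_nonneg _).trans hp
  have hδ : 0 ≤ δ := (abs_nonneg _).trans dp
  have h1 : |a * ((p + p') * (p - p'))| ≤ |a| * ((R + R) * δ) := by
    rw [abs_mul, abs_mul]
    gcongr
    exact (abs_add_le _ _).trans (add_le_add hp hp')
  have h2 : |b * (p * (y - y') + (p - p') * y')| ≤ |b| * (R * δ + δ * R) := by
    rw [abs_mul]
    gcongr
    refine (abs_add_le _ _).trans ?_
    rw [abs_mul, abs_mul]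
    gcongr
  have h3 : |c * (y * (z - z') + (y - y') * z')| ≤ |c| * (R * δ + δ * R) := by
    rw [abs_mul]
    gcongr
    refine (abs_add_le _ _).trans ?_
    rw [abs_mul, abs_mul]
    gcongr
  have h4 : |d * ((z + z') * (z - z'))| ≤ |d| * ((R + R) * δ) := by
    rw [abs_mul, abs_mul]
    gcongr
    exact (abs_add_le _ _).trans (add_le_add hz hz')
  have e : Q a b c d p y z - Q a b c d p' y' z' = a * ((p + p') * (p - p'))
      + b * (p * (y - y') + (p - p') * y') + c * (y * (z - z') + (y - y') * z')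
      + d * ((z + z') * (z - z')) := by
    unfold Q; ring
  rw [e]
  calc _ ≤ |a * ((p + p') * (p - p'))| + |b * (p * (y - y') + (p - p') * y')|
        + |c * (y * (z - z') + (y - y') * z')| + |d * ((z + z') * (z - z'))| := by
        refine (abs_add_le _ _).trans ?_
        gcongr
        refine (abs_add_le _ _).trans ?_
        gcongr
        exact abs_add_le _ _
    _ ≤ _ := by linarith

theorem prev_abs_le {x : ℕ → ℝ} {R : ℝ} (hR : 0 ≤ R) (h : ∀ n, |x n| ≤ R) (n : ℕ) :
    |prev x n| ≤ R := by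
  cases n with
  | zero => simpa [prev] using hR
  | succ m => exact h m

theorem prev_sub_abs_le {x x' : ℕ → ℝ} {R : ℝ} (hR : 0 ≤ R) (h : ∀ n, |x n - x' n| ≤ R) (n : ℕ) :
    |prev x n - prev x' n| ≤ R := by
  cases n with
  | zero => simpa [prev] using hR
  | succ m => exact h m

section Picard

variable {T : ℝ} (hT : 0 ≤ T) (a b c d : ℝ) (cc : ℕ → ℝ) (y : ℕ → ℝ)

/-- values of a function on `ℕ × [0, T]`, extended to all real times -/
noncomputable def ext (Y : BoundedContinuousFunction (ℕ × Icc (0 : ℝ) T) ℝ) (n : ℕ) (s : ℝ) : ℝ :=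
  Y (n, projIcc 0 T hT s)

theorem ext_continuous (Y : BoundedContinuousFunction (ℕ × Icc (0 : ℝ) T) ℝ) (n : ℕ) :
    Continuous (ext hT Y n) :=
  Y.continuous.comp (continuous_const.prodMk continuous_projIcc)

theorem ext_abs_le (Y : BoundedContinuousFunction (ℕ × Icc (0 : ℝ) T) ℝ) (n : ℕ) (s : ℝ) :
    |ext hT Y n s| ≤ ‖Y‖ := Y.norm_coe_le_norm _

/-- the nonlinearity along `Y` -/
noncomputable def force (Y : BoundedContinuousFunction (ℕ × Icc (0 : ℝ) T) ℝ) (n : ℕ) (s : ℝ) : ℝ :=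
  Q a b c d (prev (fun k => ext hT Y k s) n) (ext hT Y n s) (ext hT Y (n + 1) s)

theorem force_continuous (Y : BoundedContinuousFunction (ℕ × Icc (0 : ℝ) T) ℝ) (n : ℕ) :
    Continuous (force hT a b c d Y n) := by
  have h1 : Continuous fun s => prev (fun k => ext hT Y k s) n := by
    cases n with
    | zero => simpa [prev] using continuous_const
    | succ m => exact ext_continuous hT Y m
  have h2 := ext_continuous hT Y n
  have h3 := ext_continuous hT Y (n + 1)
  unfold force Q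
  fun_prop

/-- the Duhamel map at a real time -/
noncomputable def duh (Y : BoundedContinuousFunction (ℕ × Icc (0 : ℝ) T) ℝ) (n : ℕ) (t : ℝ) : ℝ :=
  Real.exp (-(cc n) * t) * (y n + ∫ s in (0 : ℝ)..t, Real.exp (cc n * s) * force hT a b c d Y n s)

theorem duh_hasDerivAt (Y : BoundedContinuousFunction (ℕ × Icc (0 : ℝ) T) ℝ) (n : ℕ) (t : ℝ) :
    HasDerivAt (duh hT a b c d cc y Y n)
      (force hT a b c d Y n t - cc n * duh hT a b c d cc y Y n t) t := by
  have hcont : Continuous fun s => Real.exp (cc n * s) * force hT a b c d Y n s := by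
    have := force_continuous hT a b c d Y n
    fun_prop
  have h1 : HasDerivAt (fun t => ∫ s in (0 : ℝ)..t, Real.exp (cc n * s) * force hT a b c d Y n s)
      (Real.exp (cc n * t) * force hT a b c d Y n t) t :=
    integral_hasDerivAt_right (hcont.intervalIntegrable _ _)
      (hcont.stronglyMeasurableAtFilter _ _) hcont.continuousAt
  have h2 : HasDerivAt (fun t : ℝ => -(cc n) * t) (-(cc n)) t := by
    simpa using (hasDerivAt_id' t).const_mul (-(cc n))
  have h3 := h2.exp.mul (h1.const_add (y n))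
  refine h3.congr_deriv ?_
  unfold duh
  have e : Real.exp (-(cc n) * t) * Real.exp (cc n * t) = 1 := by
    rw [← Real.exp_add]; simp
  linear_combination (force hT a b c d Y n t) * e

theorem duh_zero (Y : BoundedContinuousFunction (ℕ × Icc (0 : ℝ) T) ℝ) (n : ℕ) :
    duh hT a b c d cc y Y n 0 = y n := by
  simp [duh]

variable {a b c d cc y}

theorem duh_bound (hcc : ∀ n, 0 ≤ cc n) {K : ℝ} (hy : ∀ n, |y n| ≤ K)
    {Y : BoundedContinuousFunction (ℕ × Icc (0 : ℝ) T) ℝ} {R : ℝ} (hR : ‖Y‖ ≤ R) (n : ℕ) :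
    ∀ t ∈ Icc 0 T, |duh hT a b c d cc y Y n t| ≤ K + (|a| + |b| + |c| + |d|) * R ^ 2 * t := by
  have hR0 : 0 ≤ R := (norm_nonneg _).trans hR
  apply comparison (hcc n) (fun t _ => (duh_hasDerivAt hT a b c d cc y Y n t).hasDerivWithinAt)
    (g := fun _ => (|a| + |b| + |c| + |d|) * R ^ 2)
  · intro t _
    apply HasDerivAt.hasDerivWithinAt
    simpa using ((hasDerivAt_id' t).const_mul ((|a| + |b| + |c| + |d|) * R ^ 2)).const_add K
  · intro t _
    have h := fun k => (ext_abs_le hT Y k t).trans hR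
    exact Q_bound (prev_abs_le hR0 h n) (h n) (h (n + 1))
  · rw [duh_zero]
    simpa using hy n

theorem duh_lip (hcc : ∀ n, 0 ≤ cc n)
    {Y Z : BoundedContinuousFunction (ℕ × Icc (0 : ℝ) T) ℝ} {R : ℝ} (hY : ‖Y‖ ≤ R) (hZ : ‖Z‖ ≤ R)
    (n : ℕ) :
    ∀ t ∈ Icc 0 T, |duh hT a b c d cc y Y n t - duh hT a b c d cc y Z n t| ≤
      2 * (|a| + |b| + |c| + |d|) * R * ‖Y - Z‖ * t := by
  have hR0 : 0 ≤ R := (norm_nonneg _).trans hY
  apply comparison (hcc n) (z := fun t => duh hT a b c d cc y Y n t - duh hT a b c d cc y Z n t)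
    (f := fun t => force hT a b c d Y n t - force hT a b c d Z n t)
    (g := fun _ => 2 * (|a| + |b| + |c| + |d|) * R * ‖Y - Z‖)
  · intro t _
    apply HasDerivAt.hasDerivWithinAt
    refine ((duh_hasDerivAt hT a b c d cc y Y n t).sub
      (duh_hasDerivAt hT a b c d cc y Z n t)).congr_deriv ?_
    ring
  · intro t _
    apply HasDerivAt.hasDerivWithinAt
    simpa using ((hasDerivAt_id' t).const_mul (2 * (|a| + |b| + |c| + |d|) * R * ‖Y - Z‖))
  · intro t _
    have h := fun k => (ext_abs_le hT Y k t).trans hY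
    have h' := fun k => (ext_abs_le hT Z k t).trans hZ
    have hd : ∀ k, |ext hT Y k t - ext hT Z k t| ≤ ‖Y - Z‖ := by
      intro k
      have := (Y - Z).norm_coe_le_norm (k, projIcc 0 T hT t)
      simpa [ext] using this
    exact Q_lip (prev_abs_le hR0 h n) (h n) (h (n + 1)) (prev_abs_le hR0 h' n) (h' n) (h' (n + 1))
      (prev_sub_abs_le (norm_nonneg _) hd n) (hd n) (hd (n + 1))
  · simp [duh_zero]

variable (a b c d)

/-- the Duhamel map as a self map of the space of bounded continuous functions -/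
noncomputable def duhMap (hcc : ∀ n, 0 ≤ cc n) {K : ℝ} (hy : ∀ n, |y n| ≤ K)
    (Y : BoundedContinuousFunction (ℕ × Icc (0 : ℝ) T) ℝ) :
    BoundedContinuousFunction (ℕ × Icc (0 : ℝ) T) ℝ :=
  BoundedContinuousFunction.ofNormedAddCommGroup
    (fun p => duh hT a b c d cc y Y p.1 p.2)
    (by
      rw [continuous_prod_of_discrete_left]
      intro n
      have h : Continuous (duh hT a b c d cc y Y n) :=
        continuous_iff_continuousAt.mpr fun t => (duh_hasDerivAt hT a b c d cc y Y n t).continuousAt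
      exact h.comp continuous_subtype_val)
    (K + (|a| + |b| + |c| + |d|) * ‖Y‖ ^ 2 * T)
    (by
      rintro ⟨n, t⟩
      have h1 := duh_bound hT (a := a) (b := b) (c := c) (d := d) hcc hy (le_refl ‖Y‖) n t t.2
      have h2 : (|a| + |b| + |c| + |d|) * ‖Y‖ ^ 2 * (t : ℝ) ≤
          (|a| + |b| + |c| + |d|) * ‖Y‖ ^ 2 * T := by
        have := t.2.2
        gcongr
      exact h1.trans (by linarith))

end Picard

/-- Local existence: the time of existence depends only on the bound `K` of the data. -/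
theorem local_exist (a b c d : ℝ) {cc : ℕ → ℝ} (hcc : ∀ n, 0 ≤ cc n) {K : ℝ} (hK : 0 ≤ K)
    {T : ℝ} (hT : 0 ≤ T) (hTK : 8 * (|a| + |b| + |c| + |d|) * (K + 1) * T ≤ 1)
    {y : ℕ → ℝ} (hy : ∀ n, |y n| ≤ K) :
    ∃ Y : ℕ → ℝ → ℝ, (∀ n, ∀ t ∈ Icc 0 T, HasDerivWithinAt (Y n)
      (Q a b c d (prev (fun k => Y k t) n) (Y n t) (Y (n + 1) t) - cc n * Y n t) (Icc 0 T) t) ∧
      (∀ n, Y n 0 = y n) ∧ ∀ n, ∀ t ∈ Icc 0 T, |Y n t| ≤ 2 * (K + 1) := by
  set Λ := |a| + |b| + |c| + |d| with hΛ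
  have hΛ0 : 0 ≤ Λ := by positivity
  set R := 2 * (K + 1) with hR
  have hR0 : 0 ≤ R := by positivity
  set Φ := duhMap hT a b c d hcc hy with hΦ
  have hΦval : ∀ Y (n : ℕ) (t : Icc (0 : ℝ) T), Φ Y (n, t) = duh hT a b c d cc y Y n t :=
    fun Y n t => rfl
  have hmaps : MapsTo Φ (Metric.closedBall 0 R) (Metric.closedBall 0 R) := by
    intro Y hY
    rw [mem_closedBall_zero_iff] at hY ⊢
    rw [BoundedContinuousFunction.norm_le hR0]
    rintro ⟨n, t⟩
    rw [hΦval]
    have h1 := duh_bound hT (a := a) (b := b) (c := c) (d := d) hcc hy hY n t t.2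
    have h2 : Λ * R ^ 2 * (t : ℝ) ≤ Λ * R ^ 2 * T := by
      have := t.2.2
      gcongr
    have h3 : Λ * R ^ 2 * T = (8 * Λ * (K + 1) * T) * (K + 1) / 2 := by rw [hR]; ring
    have h4 : (8 * Λ * (K + 1) * T) * (K + 1) ≤ 1 * (K + 1) := by gcongr
    refine h1.trans ?_
    linarith
  have hlip : ∀ Y ∈ Metric.closedBall (0 : BoundedContinuousFunction (ℕ × Icc (0 : ℝ) T) ℝ) R,
      ∀ Z ∈ Metric.closedBall (0 : BoundedContinuousFunction (ℕ × Icc (0 : ℝ) T) ℝ) R,
      dist (Φ Y) (Φ Z) ≤ (1 / 2 : ℝ) * dist Y Z := by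
    intro Y hY Z hZ
    rw [mem_closedBall_zero_iff] at hY hZ
    rw [dist_eq_norm, dist_eq_norm, BoundedContinuousFunction.norm_le (by positivity)]
    rintro ⟨n, t⟩
    rw [BoundedContinuousFunction.coe_sub, Pi.sub_apply, hΦval, hΦval]
    have h1 := duh_lip hT (a := a) (b := b) (c := c) (d := d) (y := y) hcc hY hZ n t t.2
    have h2 : 2 * Λ * R * ‖Y - Z‖ * (t : ℝ) ≤ 2 * Λ * R * ‖Y - Z‖ * T := by
      have := t.2.2
      gcongr
    have h3 : 2 * Λ * R * ‖Y - Z‖ * T = (8 * Λ * (K + 1) * T) * ‖Y - Z‖ / 2 := by rw [hR]; ring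
    have h4 : (8 * Λ * (K + 1) * T) * ‖Y - Z‖ ≤ 1 * ‖Y - Z‖ := by gcongr
    refine h1.trans ?_
    linarith
  have hcontr : ContractingWith (1 / 2 : NNReal) (hmaps.restrict Φ _ _) := by
    refine ⟨by norm_num, ?_⟩
    apply LipschitzWith.of_dist_le_mul
    rintro ⟨Y, hY⟩ ⟨Z, hZ⟩
    have := hlip Y hY Z hZ
    change dist (Φ Y) (Φ Z) ≤ ((1 / 2 : NNReal) : ℝ) * dist Y Z
    simpa using this
  obtain ⟨Y, hYmem, hYfix, -⟩ := hcontr.exists_fixedPoint' (f := Φ)
    Metric.isClosed_closedBall.isComplete hmaps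
    (x := 0) (by simpa using hR0) (edist_ne_top _ _)
  rw [mem_closedBall_zero_iff] at hYmem
  refine ⟨fun n t => duh hT a b c d cc y Y n t, ?_, fun n => duh_zero hT a b c d cc y Y n, ?_⟩
  · have hval : ∀ k, ∀ t ∈ Icc 0 T, ext hT Y k t = duh hT a b c d cc y Y k t := by
      intro k t ht
      unfold ext
      rw [projIcc_of_mem hT ht]
      conv_lhs => rw [← hYfix]
      rfl
    intro n t ht
    have h1 := (duh_hasDerivAt hT a b c d cc y Y n t).hasDerivWithinAt (s := Icc 0 T)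
    refine h1.congr_deriv ?_
    congr 1
    unfold force
    rw [hval n t ht, hval (n + 1) t ht]
    congr 1
    cases n with
    | zero => rfl
    | succ m => exact hval m t ht
  · intro n t ht
    have h1 : duh hT a b c d cc y Y n t = Y (n, ⟨t, ht⟩) := by
      conv_rhs => rw [← hYfix]
      rfl
    change |duh hT a b c d cc y Y n t| ≤ R
    rw [h1]
    exact (Y.norm_coe_le_norm _).trans hYmem

end Pool.Agent.H39.Dy
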