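import Pool.Agent.H39.Dy.Local

/-!
Uniqueness, persistence of decay, gluing and the maximal solution for the rescaled dyadic system.
-/

open Set Filter Topology

namespace Pool.Agent.H39.Dy

/-- `Y` solves the rescaled system on `[0, T]` -/
def IsS (a b c d : ℝ) (cc : ℕ → ℝ) (T : ℝ) (Y : ℕ → ℝ → ℝ) : Prop :=
  ∀ n, ∀ t ∈ Icc 0 T, HasDerivWithinAt (Y n)
    (Q a b c d (prev (fun k => Y k t) n) (Y n t) (Y (n + 1) t) - cc n * Y n t) (Icc 0 T) t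

/-- `Y` is uniformly bounded on `[0, T]` -/
def Bd (T : ℝ) (Y : ℕ → ℝ → ℝ) : Prop := ∃ K : ℝ, ∀ n, ∀ t ∈ Icc 0 T, |Y n t| ≤ K

theorem Q_lin_bound {a b c d p y z R : ℝ} (hp : |p| ≤ R) (hy : |y| ≤ R) (hz : |z| ≤ R) :
    |Q a b c d p y z| ≤ (|a| + |b| + |c| + |d|) * R * (|p| + |y| + |z|) := by
  have hR : 0 ≤ R := (abs_nonneg _).trans hp
  have h1 : |a * p ^ 2| ≤ |a| * (R * |p|) := by
    rw [abs_mul, abs_pow, pow_two]
    gcongr
  have h2 : |b * p * y| ≤ |b| * (R * |y|) := by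
    rw [abs_mul, abs_mul, mul_assoc]
    gcongr
  have h3 : |c * y * z| ≤ |c| * (R * |z|) := by
    rw [abs_mul, abs_mul, mul_assoc]
    gcongr
  have h4 : |d * z ^ 2| ≤ |d| * (R * |z|) := by
    rw [abs_mul, abs_pow, pow_two]
    gcongr
  have e1 : |a| * (R * |p|) ≤ |a| * (R * (|p| + |y| + |z|)) := by
    gcongr
    linarith [abs_nonneg y, abs_nonneg z]
  have e2 : |b| * (R * |y|) ≤ |b| * (R * (|p| + |y| + |z|)) := by
    gcongr
    linarith [abs_nonneg p, abs_nonneg z]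
  have e3 : |c| * (R * |z|) ≤ |c| * (R * (|p| + |y| + |z|)) := by
    gcongr
    linarith [abs_nonneg y, abs_nonneg p]
  have e4 : |d| * (R * |z|) ≤ |d| * (R * (|p| + |y| + |z|)) := by
    gcongr
    linarith [abs_nonneg y, abs_nonneg p]
  unfold Q
  calc |a * p ^ 2 + b * p * y + c * y * z + d * z ^ 2|
      ≤ |a * p ^ 2| + |b * p * y| + |c * y * z| + |d * z ^ 2| := by
        refine (abs_add_le _ _).trans ?_
        gcongr
        refine (abs_add_le _ _).trans ?_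
        gcongr
        exact abs_add_le _ _
    _ ≤ _ := by linarith

variable {a b c d : ℝ} {cc : ℕ → ℝ}

theorem IsS.mono {T T' : ℝ} {Y : ℕ → ℝ → ℝ} (h : IsS a b c d cc T Y) (hT : T' ≤ T) :
    IsS a b c d cc T' Y := fun n t ht =>
  (h n t ⟨ht.1, ht.2.trans hT⟩).mono (Icc_subset_Icc_right hT)

theorem Bd.mono {T T' : ℝ} {Y : ℕ → ℝ → ℝ} (h : Bd T Y) (hT : T' ≤ T) : Bd T' Y := by
  obtain ⟨K, hK⟩ := h
  exact ⟨K, fun n t ht => hK n t ⟨ht.1, ht.2.trans hT⟩⟩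

/-- Uniqueness in the class of uniformly bounded solutions. -/
theorem IsS.unique (hcc : ∀ n, 0 ≤ cc n) {T : ℝ} {Y Z : ℕ → ℝ → ℝ}
    (hY : IsS a b c d cc T Y) (hZ : IsS a b c d cc T Z) (bY : Bd T Y) (bZ : Bd T Z)
    (h0 : ∀ n, Y n 0 = Z n 0) : ∀ n, ∀ t ∈ Icc 0 T, Y n t = Z n t := by
  intro n t ht
  have hT : 0 ≤ T := ht.1.trans ht.2
  obtain ⟨K₁, hK₁⟩ := bY
  obtain ⟨K₂, hK₂⟩ := bZ
  set R := max K₁ K₂ with hR
  have h1 : ∀ n, ∀ t ∈ Icc 0 T, |Y n t| ≤ R := fun n t ht => (hK₁ n t ht).trans (le_max_left _ _)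
  have h2 : ∀ n, ∀ t ∈ Icc 0 T, |Z n t| ≤ R := fun n t ht => (hK₂ n t ht).trans (le_max_right _ _)
  have hR0 : 0 ≤ R := (abs_nonneg _).trans (h1 0 0 ⟨le_rfl, hT⟩)
  have key := propagate (T := T) (L := 2 * (|a| + |b| + |c| + |d|) * R) (A := 0) (ρ := 1)
    (C := R + R) (by positivity) le_rfl one_pos hcc
    (z := fun n t => Y n t - Z n t)
    (f := fun n t => Q a b c d (prev (fun k => Y k t) n) (Y n t) (Y (n + 1) t) -
      Q a b c d (prev (fun k => Z k t) n) (Z n t) (Z (n + 1) t)) ?_ ?_ ?_ ?_ n t ht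
  · rw [zero_mul, zero_mul] at key
    exact sub_eq_zero.mp (abs_eq_zero.mp (le_antisymm key (abs_nonneg _)))
  · intro n t ht
    refine ((hY n t ht).sub (hZ n t ht)).congr_deriv ?_
    ring
  · intro n t ht
    have hp : prev (fun k => Y k t - Z k t) n =
        prev (fun k => Y k t) n - prev (fun k => Z k t) n := by
      cases n with
      | zero => simp [prev]
      | succ m => rfl
    rw [hp]
    have a1 := abs_nonneg (prev (fun k => Y k t) n - prev (fun k => Z k t) n)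
    have a2 := abs_nonneg (Y n t - Z n t)
    have a3 := abs_nonneg (Y (n + 1) t - Z (n + 1) t)
    exact Q_lip (prev_abs_le hR0 (fun k => h1 k t ht) n) (h1 n t ht) (h1 (n + 1) t ht)
      (prev_abs_le hR0 (fun k => h2 k t ht) n) (h2 n t ht) (h2 (n + 1) t ht)
      (by linarith) (by linarith) (by linarith)
  · intro n t ht
    refine (abs_sub _ _).trans ?_
    exact add_le_add (h1 n t ht) (h2 n t ht)
  · intro n
    simp [h0 n]

/-- Persistence of geometric decay (or growth) of any rate. -/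
theorem IsS.decay (hcc : ∀ n, 0 ≤ cc n) {T K A ρ : ℝ} {Y : ℕ → ℝ → ℝ}
    (hY : IsS a b c d cc T Y) (hK : ∀ n, ∀ t ∈ Icc 0 T, |Y n t| ≤ K) (hA : 0 ≤ A) (hρ : 0 < ρ)
    (h0 : ∀ n, |Y n 0| ≤ A * ρ ^ n) : ∀ n, ∀ t ∈ Icc 0 T,
      |Y n t| ≤ A * ρ ^ n * Real.exp ((|a| + |b| + |c| + |d|) * K * (1 / ρ + 1 + ρ) * t) := by
  intro n t ht
  have hT : 0 ≤ T := ht.1.trans ht.2
  have hK0 : 0 ≤ K := (abs_nonneg _).trans (hK 0 0 ⟨le_rfl, hT⟩)
  exact propagate (by positivity) hA hρ hcc hY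
    (fun n t ht => Q_lin_bound (prev_abs_le hK0 (fun k => hK k t ht) n) (hK n t ht)
      (hK (n + 1) t ht)) hK h0 n t ht

/-- Gluing two solutions. -/
theorem IsS.glue {T τ : ℝ} (hT : 0 ≤ T) (hτ : 0 ≤ τ) {Y Z : ℕ → ℝ → ℝ}
    (hY : IsS a b c d cc T Y) (hZ : IsS a b c d cc τ Z) (h : ∀ n, Z n 0 = Y n T) :
    IsS a b c d cc (T + τ) (fun n t => if t ≤ T then Y n t else Z n (t - T)) := by
  set W : ℕ → ℝ → ℝ := fun n t => if t ≤ T then Y n t else Z n (t - T) with hW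
  have hW1 : ∀ n, ∀ t ≤ T, W n t = Y n t := fun n t ht => by simp [hW, ht]
  have hW2 : ∀ n, ∀ t, T ≤ t → W n t = Z n (t - T) := by
    intro n t ht
    rcases ht.eq_or_lt with rfl | ht
    · simp [hW, h n]
    · simp [hW, not_le.mpr ht]
  -- the field along `W`
  have hF1 : ∀ n, ∀ t ≤ T, Q a b c d (prev (fun k => W k t) n) (W n t) (W (n + 1) t) - cc n * W n t
      = Q a b c d (prev (fun k => Y k t) n) (Y n t) (Y (n + 1) t) - cc n * Y n t := by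
    intro n t ht
    have : (fun k => W k t) = fun k => Y k t := funext fun k => hW1 k t ht
    rw [this, hW1 n t ht, hW1 (n + 1) t ht]
  have hF2 : ∀ n, ∀ t, T ≤ t →
      Q a b c d (prev (fun k => W k t) n) (W n t) (W (n + 1) t) - cc n * W n t
      = Q a b c d (prev (fun k => Z k (t - T)) n) (Z n (t - T)) (Z (n + 1) (t - T))
        - cc n * Z n (t - T) := by
    intro n t ht
    have : (fun k => W k t) = fun k => Z k (t - T) := funext fun k => hW2 k t ht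
    rw [this, hW2 n t ht, hW2 (n + 1) t ht]
  have d1 : ∀ n, ∀ t ∈ Icc 0 T, HasDerivWithinAt (W n)
      (Q a b c d (prev (fun k => W k t) n) (W n t) (W (n + 1) t) - cc n * W n t) (Icc 0 T) t := by
    intro n t ht
    rw [hF1 n t ht.2]
    exact (hY n t ht).congr (fun s hs => hW1 n s hs.2) (hW1 n t ht.2)
  have d2 : ∀ n, ∀ t ∈ Icc T (T + τ), HasDerivWithinAt (W n)
      (Q a b c d (prev (fun k => W k t) n) (W n t) (W (n + 1) t) - cc n * W n t)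
      (Icc T (T + τ)) t := by
    intro n t ht
    rw [hF2 n t ht.1]
    have hm : t - T ∈ Icc 0 τ := ⟨by linarith [ht.1], by linarith [ht.2]⟩
    have hmaps : MapsTo (fun s : ℝ => s - T) (Icc T (T + τ)) (Icc 0 τ) := by
      intro s hs
      exact ⟨by simpa using hs.1, by
        have := hs.2
        simp only [tsub_le_iff_right]
        linarith⟩
    have h3 : HasDerivWithinAt (fun s : ℝ => s - T) 1 (Icc T (T + τ)) t :=
      ((hasDerivAt_id' t).sub_const T).hasDerivWithinAt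
    have h4 := HasDerivWithinAt.comp t (hZ n (t - T) hm) h3 hmaps
    rw [mul_one] at h4
    exact h4.congr (fun s hs => hW2 n s hs.1) (hW2 n t ht.1)
  intro n t ht
  have hU : Icc (0 : ℝ) (T + τ) = Icc 0 T ∪ Icc T (T + τ) :=
    (Icc_union_Icc_eq_Icc hT (by linarith)).symm
  rcases lt_trichotomy t T with hlt | rfl | hgt
  · refine (d1 n t ⟨ht.1, hlt.le⟩).mono_of_mem_nhdsWithin ?_
    rw [mem_nhdsWithin]
    exact ⟨Iio T, isOpen_Iio, hlt, fun s hs => ⟨hs.2.1, le_of_lt hs.1⟩⟩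
  · rw [hU]
    exact (d1 n t ⟨ht.1, le_rfl⟩).union (d2 n t ⟨le_rfl, ht.2⟩)
  · refine (d2 n t ⟨hgt.le, ht.2⟩).mono_of_mem_nhdsWithin ?_
    rw [mem_nhdsWithin]
    exact ⟨Ioi T, isOpen_Ioi, hgt, fun s hs => ⟨le_of_lt hs.1, hs.2.2⟩⟩

/-- the class of solutions with data `y` on `[0, T]` -/
def Sol (a b c d : ℝ) (cc y : ℕ → ℝ) (T : ℝ) (Y : ℕ → ℝ → ℝ) : Prop :=
  IsS a b c d cc T Y ∧ Bd T Y ∧ ∀ n, Y n 0 = y n

theorem Sol.mono {y : ℕ → ℝ} {T T' : ℝ} {Y : ℕ → ℝ → ℝ} (h : Sol a b c d cc y T Y) (hT : T' ≤ T) :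
    Sol a b c d cc y T' Y := ⟨h.1.mono hT, h.2.1.mono hT, h.2.2⟩

theorem Sol.congr {y : ℕ → ℝ} {T : ℝ} {Y Z : ℕ → ℝ → ℝ} (hT : 0 ≤ T)
    (h : Sol a b c d cc y T Y) (hYZ : ∀ n, ∀ t ∈ Icc 0 T, Z n t = Y n t) :
    Sol a b c d cc y T Z := by
  refine ⟨?_, ?_, ?_⟩
  · intro n t ht
    have : prev (fun k => Z k t) n = prev (fun k => Y k t) n := by
      cases n with
      | zero => rfl
      | succ m => exact hYZ m t ht
    rw [this, hYZ n t ht, hYZ (n + 1) t ht]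
    exact (h.1 n t ht).congr (hYZ n) (hYZ n t ht)
  · obtain ⟨K, hK⟩ := h.2.1
    exact ⟨K, fun n t ht => by rw [hYZ n t ht]; exact hK n t ht⟩
  · intro n
    rw [hYZ n 0 ⟨le_rfl, hT⟩, h.2.2 n]

/-- Extension of a solution: the additional time depends only on a bound at the final time. -/
theorem Sol.extend (hcc : ∀ n, 0 ≤ cc n) {y : ℕ → ℝ} {T K τ : ℝ} {Y : ℕ → ℝ → ℝ} (hT : 0 ≤ T)
    (h : Sol a b c d cc y T Y) (hK0 : 0 ≤ K) (hK : ∀ n, |Y n T| ≤ K) (hτ : 0 ≤ τ)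
    (hτK : 8 * (|a| + |b| + |c| + |d|) * (K + 1) * τ ≤ 1) :
    ∃ W, Sol a b c d cc y (T + τ) W := by
  obtain ⟨Z, hZ, hZ0, hZb⟩ := local_exist a b c d hcc hK0 hτ hτK hK
  refine ⟨fun n t => if t ≤ T then Y n t else Z n (t - T), h.1.glue hT hτ hZ hZ0, ?_, ?_⟩
  · obtain ⟨K', hK'⟩ := h.2.1
    refine ⟨max K' (2 * (K + 1)), fun n t ht => ?_⟩
    by_cases hc : t ≤ T
    · simp only [hc, if_true]
      exact (hK' n t ⟨ht.1, hc⟩).trans (le_max_left _ _)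
    · simp only [hc, if_false]
      exact (hZb n (t - T) ⟨by linarith [not_le.mp hc], by linarith [ht.2]⟩).trans (le_max_right _ _)
  · intro n
    simp only [hT, if_true]
    exact h.2.2 n

/-- **Maximal solutions.** For bounded data there is either a global solution or a maximal solution
with finite life time which is unbounded. -/
theorem dichotomy (hcc : ∀ n, 0 ≤ cc n) {y : ℕ → ℝ} {K₀ : ℝ} (hy : ∀ n, |y n| ≤ K₀) :
    (∃ Y, ∀ T, 0 ≤ T → Sol a b c d cc y T Y) ∨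
    ∃ T₀ : ℝ, 0 < T₀ ∧ ∃ Y, (∀ T, 0 ≤ T → T < T₀ → Sol a b c d cc y T Y) ∧
      ∀ K : ℝ, ∃ n, ∃ t ∈ Ico 0 T₀, K < |Y n t| := by
  classical
  have hK₀ : 0 ≤ K₀ := (abs_nonneg _).trans (hy 0)
  set Λ := |a| + |b| + |c| + |d| with hΛ
  have hΛ0 : 0 ≤ Λ := by positivity
  -- local existence time
  have hloc : ∀ K : ℝ, 0 ≤ K → ∃ τ : ℝ, 0 < τ ∧ 8 * Λ * (K + 1) * τ ≤ 1 := by
    intro K hK
    refine ⟨1 / (8 * Λ * (K + 1) + 1), by positivity, ?_⟩
    rw [mul_one_div, div_le_one (by positivity)]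
    linarith
  set S : Set ℝ := {T | 0 ≤ T ∧ ∃ Y, Sol a b c d cc y T Y} with hS
  obtain ⟨τ₀, hτ₀, hτ₀'⟩ := hloc K₀ hK₀
  have hτS : τ₀ ∈ S := by
    obtain ⟨Y, h1, h2, h3⟩ := local_exist a b c d hcc hK₀ hτ₀.le hτ₀' hy
    exact ⟨hτ₀.le, Y, h1, ⟨_, h3⟩, h2⟩
  have hdown : ∀ T ∈ S, ∀ T', 0 ≤ T' → T' ≤ T → T' ∈ S := by
    rintro T ⟨_, Y, hY⟩ T' h0 h1
    exact ⟨h0, Y, hY.mono h1⟩
  -- a choice of solutions
  choose! X hX using fun (T : ℝ) (hT : T ∈ S) => hT.2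
  have huniq : ∀ T ∈ S, ∀ T' ∈ S, ∀ n, ∀ t, 0 ≤ t → t ≤ T → t ≤ T' → X T n t = X T' n t := by
    intro T hT T' hT' n t h0 h1 h2
    have e1 := (hX T hT).mono h1
    have e2 := (hX T' hT').mono h2
    exact e1.1.unique hcc e2.1 e1.2.1 e2.2.1 (fun n => by rw [e1.2.2, e2.2.2]) n t ⟨h0, le_rfl⟩
  by_cases hb : BddAbove S
  · right
    set T₀ := sSup S with hT₀
    have hT₀pos : 0 < T₀ := hτ₀.trans_le (le_csSup hb hτS)
    have hlt : ∀ T, 0 ≤ T → T < T₀ → T ∈ S := by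
      intro T h0 h1
      obtain ⟨T', hT', h2⟩ := exists_lt_of_lt_csSup ⟨τ₀, hτS⟩ h1
      exact hdown T' hT' T h0 h2.le
    set Y : ℕ → ℝ → ℝ := fun n t => X ((t + T₀) / 2) n t with hYdef
    have hYX : ∀ T, 0 ≤ T → T < T₀ → ∀ n, ∀ t ∈ Icc 0 T, Y n t = X T n t := by
      intro T h0 h1 n t ht
      have : t < T₀ := ht.2.trans_lt h1
      exact huniq _ (hlt _ (by linarith [ht.1]) (by linarith)) T (hlt T h0 h1) n t ht.1
        (by linarith) ht.2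
    have hsol : ∀ T, 0 ≤ T → T < T₀ → Sol a b c d cc y T Y := fun T h0 h1 =>
      (hX T (hlt T h0 h1)).congr h0 (hYX T h0 h1)
    refine ⟨T₀, hT₀pos, Y, hsol, ?_⟩
    by_contra hcon
    push Not at hcon
    obtain ⟨K, hK⟩ := hcon
    have hK0 : 0 ≤ K := (abs_nonneg _).trans (hK 0 0 ⟨le_rfl, hT₀pos⟩)
    obtain ⟨τ, hτ, hτ'⟩ := hloc K hK0
    set T₁ := max 0 (T₀ - τ / 2) with hT₁
    have hT₁0 : 0 ≤ T₁ := le_max_left _ _
    have hT₁lt : T₁ < T₀ := max_lt hT₀pos (by linarith)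
    obtain ⟨W, hW⟩ := (hsol T₁ hT₁0 hT₁lt).extend hcc hT₁0 hK0
      (fun n => hK n T₁ ⟨hT₁0, hT₁lt⟩) hτ.le hτ'
    have : T₁ + τ ≤ T₀ := le_csSup hb ⟨by linarith, W, hW⟩
    have h5 : T₀ - τ / 2 ≤ T₁ := le_max_right _ _
    linarith
  · left
    have hall : ∀ T, 0 ≤ T → T ∈ S := by
      intro T h0
      rw [not_bddAbove_iff] at hb
      obtain ⟨T', hT', h2⟩ := hb T
      exact hdown T' hT' T h0 h2.le
    refine ⟨fun n t => X t n t, fun T h0 => (hX T (hall T h0)).congr h0 ?_⟩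
    intro n t ht
    exact huniq _ (hall t ht.1) T (hall T h0) n t ht.1 le_rfl ht.2

end Pool.Agent.H39.Dy
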