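import Pool.Agent.H39.Dy.Max

/-!
# Local well-posedness of the mixed dyadic system

`X_n' = gain_n - ν D ^ n X_n - B ^ n X_{n+1} (α X_n + β X_{n+1})`,
`gain_{m+1} = B ^ m X_m (α X_m + β X_{m+1})`.

For every rapidly decreasing datum there is either a global solution, rapidly decreasing uniformly on
every `[0, T]`, or a maximal solution on `[0, T₀)` along which `B ^ n |X_n(t)|` is unbounded
(`wellposed`); solutions with bounded `B ^ n |X_n(t)|` are unique (`unique`).
-/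

open Set Filter Topology

namespace Pool.Agent.H39.Dy

/-- what shell `n` gains from shell `n - 1` -/
def gain (α β B : ℝ) (x : ℕ → ℝ) : ℕ → ℝ
  | 0 => 0
  | m + 1 => B ^ m * x m * (α * x m + β * x (m + 1))

/-- `X` solves the dyadic system on `[0, T]` -/
def IsSol (α β B D ν T : ℝ) (X : ℕ → ℝ → ℝ) : Prop :=
  ∀ n, ∀ t ∈ Icc 0 T, HasDerivWithinAt (X n)
    (gain α β B (fun k => X k t) n - ν * D ^ n * X n t
      - B ^ n * X (n + 1) t * (α * X n t + β * X (n + 1) t)) (Icc 0 T) t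

/-- `X` decreases faster than every geometric sequence, uniformly on `[0, T]` -/
def Rapid (T : ℝ) (X : ℕ → ℝ → ℝ) : Prop :=
  ∀ s : ℝ, 0 < s → ∃ C : ℝ, ∀ n, ∀ t ∈ Icc 0 T, s ^ n * |X n t| ≤ C

theorem field_eq {B : ℝ} (hB : 0 < B) (α β c : ℝ) (x : ℕ → ℝ) (n : ℕ) :
    gain α β B x n - c * x n - B ^ n * x (n + 1) * (α * x n + β * x (n + 1)) =
      (Q (α * B) β (-(α / B)) (-(β / B ^ 2)) (prev (fun k => B ^ k * x k) n) (B ^ n * x n)
        (B ^ (n + 1) * x (n + 1)) - c * (B ^ n * x n)) / B ^ n := by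
  cases n with
  | zero =>
    simp only [gain, prev, Q]
    field_simp
    ring
  | succ m =>
    simp only [gain, prev, Q]
    have : B ^ (m + 1) ≠ 0 := by positivity
    field_simp
    ring

theorem isSol_iff {α β B D ν T : ℝ} (hB : 0 < B) (X : ℕ → ℝ → ℝ) :
    IsSol α β B D ν T X ↔ IsS (α * B) β (-(α / B)) (-(β / B ^ 2)) (fun n => ν * D ^ n) T
      (fun n t => B ^ n * X n t) := by
  constructor
  · intro h n t ht
    have h1 := (h n t ht).const_mul (B ^ n)
    refine h1.congr_deriv ?_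
    rw [field_eq hB α β (ν * D ^ n) (fun k => X k t) n]
    field_simp
  · intro h n t ht
    have h1 := (h n t ht).div_const (B ^ n)
    have e : (fun t => B ^ n * X n t / B ^ n) = X n := by
      funext t
      field_simp
    rw [e] at h1
    refine h1.congr_deriv ?_
    rw [field_eq hB α β (ν * D ^ n) (fun k => X k t) n]

/-- Uniqueness in the class of solutions with `B ^ n |X_n(t)|` bounded. -/
theorem unique {α β B D ν T : ℝ} (hB : 0 < B) (hD : 0 ≤ D) (hν : 0 ≤ ν) {X X' : ℕ → ℝ → ℝ}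
    (h : IsSol α β B D ν T X) (h' : IsSol α β B D ν T X')
    (b : ∃ K : ℝ, ∀ n, ∀ t ∈ Icc 0 T, B ^ n * |X n t| ≤ K)
    (b' : ∃ K : ℝ, ∀ n, ∀ t ∈ Icc 0 T, B ^ n * |X' n t| ≤ K)
    (h0 : ∀ n, X n 0 = X' n 0) : ∀ n, ∀ t ∈ Icc 0 T, X n t = X' n t := by
  intro n t ht
  have hBn : ∀ n, (0 : ℝ) < B ^ n := fun n => by positivity
  have hb : ∀ {X : ℕ → ℝ → ℝ}, (∃ K : ℝ, ∀ n, ∀ t ∈ Icc 0 T, B ^ n * |X n t| ≤ K) →
      Bd T (fun n t => B ^ n * X n t) := by
    rintro X ⟨K, hK⟩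
    refine ⟨K, fun n t ht => ?_⟩
    rw [abs_mul, abs_of_pos (hBn n)]
    exact hK n t ht
  have := IsS.unique (fun n => by positivity) ((isSol_iff hB X).mp h) ((isSol_iff hB X').mp h')
    (hb b) (hb b') (fun n => by rw [h0 n]) n t ht
  exact mul_left_cancel₀ (hBn n).ne' this

/-- **Local well-posedness.** For rapidly decreasing data there is either a global solution, rapidly
decreasing uniformly on bounded time intervals, or a maximal one with finite life time `T₀`, rapidly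
decreasing uniformly on `[0, T]` for every `T < T₀`, with `B ^ n |X_n(t)|` unbounded. -/
theorem wellposed (α β : ℝ) {B D ν : ℝ} (hB : 0 < B) (hD : 0 ≤ D) (hν : 0 ≤ ν) {x : ℕ → ℝ}
    (hx : ∀ s : ℝ, 0 < s → ∃ C : ℝ, ∀ n, s ^ n * |x n| ≤ C) :
    (∃ X : ℕ → ℝ → ℝ, (∀ n, X n 0 = x n) ∧ ∀ T, 0 ≤ T → IsSol α β B D ν T X ∧ Rapid T X) ∨
    ∃ T₀ : ℝ, 0 < T₀ ∧ ∃ X : ℕ → ℝ → ℝ, (∀ n, X n 0 = x n) ∧
      (∀ T, 0 ≤ T → T < T₀ → IsSol α β B D ν T X ∧ Rapid T X) ∧
      ∀ K : ℝ, ∃ n, ∃ t ∈ Ico 0 T₀, K < B ^ n * |X n t| := by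
  have hBn : ∀ n, (0 : ℝ) < B ^ n := fun n => by positivity
  have hcc : ∀ n, 0 ≤ ν * D ^ n := fun n => by positivity
  obtain ⟨K₀, hK₀⟩ := hx B hB
  have hy : ∀ n, |B ^ n * x n| ≤ K₀ := by
    intro n
    rw [abs_mul, abs_of_pos (hBn n)]
    exact hK₀ n
  -- translation of the properties of a solution
  have htr : ∀ T, 0 ≤ T → ∀ Y, Sol (α * B) β (-(α / B)) (-(β / B ^ 2)) (fun n => ν * D ^ n)
      (fun n => B ^ n * x n) T Y → IsSol α β B D ν T (fun n t => Y n t / B ^ n) ∧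
        Rapid T (fun n t => Y n t / B ^ n) := by
    intro T hT Y hY
    have e : (fun (n : ℕ) (t : ℝ) => B ^ n * (Y n t / B ^ n)) = Y := by
      funext n t
      field_simp
    constructor
    · rw [isSol_iff hB, e]
      exact hY.1
    · intro s hs
      obtain ⟨K, hK⟩ := hY.2.1
      obtain ⟨C, hC⟩ := hx s hs
      have hC0 : 0 ≤ C := (mul_nonneg (by positivity) (abs_nonneg _)).trans (hC 0)
      have hK0 : 0 ≤ K := (abs_nonneg _).trans (hK 0 0 ⟨le_rfl, hT⟩)
      have h0 : ∀ n, |Y n 0| ≤ C * (B / s) ^ n := by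
        intro n
        rw [hY.2.2 n, abs_mul, abs_of_pos (hBn n), div_pow, mul_div_assoc', le_div_iff₀ (by positivity)]
        have := mul_le_mul_of_nonneg_left (hC n) (hBn n).le
        linarith
      have h1 := hY.1.decay hcc hK hC0 (div_pos hB hs) h0
      set κ := (|α * B| + |β| + |-(α / B)| + |-(β / B ^ 2)|) * K * (1 / (B / s) + 1 + B / s)
      refine ⟨C * Real.exp (κ * T), fun n t ht => ?_⟩
      have h2 := h1 n t ht
      have hκ : 0 ≤ κ := by positivity
      have h3 : Real.exp (κ * t) ≤ Real.exp (κ * T) := by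
        apply Real.exp_le_exp.mpr
        exact mul_le_mul_of_nonneg_left ht.2 hκ
      rw [abs_div, abs_of_pos (hBn n)]
      calc s ^ n * (|Y n t| / B ^ n) ≤ s ^ n * (C * (B / s) ^ n * Real.exp (κ * T) / B ^ n) := by
            gcongr
            exact h2.trans (by gcongr)
        _ = C * Real.exp (κ * T) := by
            rw [div_pow]
            field_simp
  have h00 : ∀ n, B ^ n * x n / B ^ n = x n := fun n => by
    have := hBn n
    field_simp
  rcases dichotomy (a := α * B) (b := β) (c := -(α / B)) (d := -(β / B ^ 2)) hcc hy with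
    ⟨Y, hY⟩ | ⟨T₀, hT₀, Y, hY, hunb⟩
  · left
    refine ⟨fun n t => Y n t / B ^ n, fun n => ?_, fun T hT => htr T hT Y (hY T hT)⟩
    simp only
    rw [(hY 0 le_rfl).2.2 n, h00 n]
  · right
    refine ⟨T₀, hT₀, fun n t => Y n t / B ^ n, fun n => ?_, fun T hT hT' => htr T hT Y (hY T hT hT'),
      fun K => ?_⟩
    · simp only
      rw [(hY 0 le_rfl hT₀).2.2 n, h00 n]
    · obtain ⟨n, t, ht, h⟩ := hunb K
      refine ⟨n, t, ht, ?_⟩
      rw [abs_div, abs_of_pos (hBn n), mul_div_cancel₀ _ (hBn n).ne']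
      exact h

end Pool.Agent.H39.Dy
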